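import Mathlib

set_option autoImplicit false

/-!
The planar graph used to refute the conjecture.  `F`-vertices form an 8-adic hyperbolic half plane
(rows `n`, with `8^n` vertices), `T`-vertices form a tree with quickly growing degrees.  Each `T`-vertex is
joined to one `F`-vertex by a vertical rung, and the horizontal `F`-edges crossed by a rung are deleted.
-/

namespace Pool.Agent.Lib.MP_a838d0_pr

/-- `h j`: the `T`-vertices of level `j` sit above the `8`-adic intervals of length `8^(-h j)`. -/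
def h : ℕ → ℕ
  | 0 => 0
  | (j+1) => 4 * h j + 4 * j + 60

theorem h_zero : h 0 = 0 := rfl
theorem h_succ (j : ℕ) : h (j + 1) = 4 * h j + 4 * j + 60 := rfl

attribute [irreducible] h

/-- `nn j`: the row of `F` containing the feet of the rungs of the `T`-vertices of level `j`. -/
def nn (j : ℕ) : ℕ := 2 * h j + 2

/-- The foot of the rung of the `T`-vertex `(j,i)` is the `F`-vertex `(nn j, foot j i)`. -/
def foot (j i : ℕ) : ℕ := i * 8 ^ (h j + 2) + 4 * 8 ^ (h j + 1)

/-- The horizontal edge between `(n,k)` and `(n,k+1)` is crossed by some rung. -/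
def cut (n k : ℕ) : Prop :=
  ∃ j i : ℕ, nn j < n ∧ k + 1 = (2 * foot j i + 1) * (4 * 8 ^ (n - nn j - 1))

/-- The vertex set. -/
inductive Vtx : Type
  | F (n k : ℕ) (hk : k < 8 ^ n) : Vtx
  | T (j i : ℕ) (hi : i < 8 ^ (h j)) : Vtx

/-- Directed version of the adjacency. -/
inductive Adj0 : Vtx → Vtx → Prop
  | fp (n k k' : ℕ) (hk : k < 8 ^ n) (hk' : k' < 8 ^ (n + 1)) (e : k' / 8 = k) :
      Adj0 (.F n k hk) (.F (n + 1) k' hk')
  | fh (n k : ℕ) (hk : k < 8 ^ n) (hk' : k + 1 < 8 ^ n) (hc : ¬ cut n k) :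
      Adj0 (.F n k hk) (.F n (k + 1) hk')
  | tp (j i i' : ℕ) (hi : i < 8 ^ (h j)) (hi' : i' < 8 ^ (h (j + 1)))
      (e : i' / 8 ^ (h (j + 1) - h j) = i) : Adj0 (.T j i hi) (.T (j + 1) i' hi')
  | rg (j i : ℕ) (hi : i < 8 ^ (h j)) (hf : foot j i < 8 ^ (nn j)) :
      Adj0 (.T j i hi) (.F (nn j) (foot j i) hf)

theorem Adj0.ne {u v : Vtx} (e : Adj0 u v) : u ≠ v := by
  cases e <;> simp

/-- The graph. -/
def G : SimpleGraph Vtx where
  Adj u v := Adj0 u v ∨ Adj0 v u
  symm := ⟨fun _ _ e => e.symm⟩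
  loopless := ⟨fun u e => by rcases e with e | e <;> exact e.ne rfl⟩

end Pool.Agent.Lib.MP_a838d0_pr
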