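import Mathlib
import Pool.Agent.Lib.MP_a838d0_pr.Defs

set_option autoImplicit false

/-! Straight-line drawing of the graph `G`. -/

namespace Pool.Agent.Lib.MP_a838d0_pr

theorem h_lt_nn (j : ℕ) : h j < nn j := by unfold nn; omega

theorem nn_lt_h_succ (j : ℕ) : nn j < h (j + 1) := by
  unfold nn; rw [h_succ]; omega

theorem nn_lt_h {j j' : ℕ} (hj : j < j') : nn j < h j' := by
  induction j' with
  | zero => omega
  | succ m ih =>
    rcases Nat.lt_succ_iff_lt_or_eq.mp hj with h1 | h1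
    · exact (ih h1).trans ((h_lt_nn m).trans (nn_lt_h_succ m))
    · subst h1; exact nn_lt_h_succ j

theorem h_mono {j j' : ℕ} (hj : j ≤ j') : h j ≤ h j' := by
  rcases hj.lt_or_eq with h1 | h1
  · exact ((h_lt_nn j).trans (nn_lt_h h1)).le
  · rw [h1]

theorem j_le_h (j : ℕ) : j ≤ h j := by
  induction j with
  | zero => exact Nat.zero_le _
  | succ m ih => rw [h_succ]; omega

theorem nn_inj {j j' : ℕ} (e : nn j = nn j') : j = j' := by
  rcases lt_trichotomy j j' with h1 | h1 | h1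
  · have := nn_lt_h h1; have := h_lt_nn j'; omega
  · exact h1
  · have := nn_lt_h h1; have := h_lt_nn j; omega

theorem foot_lt (j i : ℕ) (hi : i < 8 ^ (h j)) : foot j i < 8 ^ (nn j) := by
  unfold foot nn
  have h1 : (8:ℕ) ^ (2 * h j + 2) = 8 ^ (h j) * 8 ^ (h j + 2) := by ring
  have h2 : (8:ℕ) ^ (h j + 2) = 8 * 8 ^ (h j + 1) := by ring
  have h3 : 0 < (8:ℕ) ^ (h j + 1) := by positivity
  have h4 : (i + 1) * 8 ^ (h j + 2) ≤ 8 ^ (h j) * 8 ^ (h j + 2) := Nat.mul_le_mul_right _ hi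
  rw [h1]
  calc i * 8 ^ (h j + 2) + 4 * 8 ^ (h j + 1) < (i + 1) * 8 ^ (h j + 2) := by rw [h2]; nlinarith
    _ ≤ _ := h4

/-- horizontal coordinate -/
noncomputable def X : Vtx → ℝ
  | .F n k _ => ((k : ℝ) + 1 / 2) / 8 ^ n
  | .T j i _ => ((foot j i : ℝ) + 1 / 2) / 8 ^ (nn j)

/-- vertical coordinate -/
noncomputable def Y : Vtx → ℝ
  | .F n _ _ => -(1 / 2) ^ n
  | .T j _ _ => (1 / 2) ^ j

/-- the drawing of the vertices -/
noncomputable def pos (v : Vtx) : ℂ := ⟨X v, Y v⟩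

/-- the straight arcs -/
noncomputable def arc (u v : Vtx) (t : ℝ) : ℂ :=
  ⟨X u + t * (X v - X u), Y u + t * (Y v - Y u)⟩

/-- abscissa of a rung -/
noncomputable def xs (j i : ℕ) : ℝ := ((foot j i : ℝ) + 1 / 2) / 8 ^ (nn j)

theorem xs_lb (j i : ℕ) : (i : ℝ) / 8 ^ (h j) < xs j i := by
  unfold xs foot nn
  have h1 : (8:ℝ) ^ (2 * h j + 2) = 8 ^ (h j) * 8 ^ (h j + 2) := by ring
  rw [h1, div_lt_div_iff₀ (by positivity) (by positivity)]
  push_cast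
  have h3 : 0 < (8:ℝ) ^ (h j + 1) := by positivity
  have h4 : 0 < (8:ℝ) ^ (h j) := by positivity
  nlinarith [mul_pos h3 h4]

theorem xs_ub (j i : ℕ) : xs j i < ((i : ℝ) + 1) / 8 ^ (h j) := by
  unfold xs foot nn
  have h1 : (8:ℝ) ^ (2 * h j + 2) = 8 ^ (h j) * 8 ^ (h j + 2) := by ring
  have h2 : (8:ℝ) ^ (h j + 2) = 8 * 8 ^ (h j + 1) := by ring
  rw [h1, div_lt_div_iff₀ (by positivity) (by positivity)]
  push_cast
  have h3 : 1 ≤ (8:ℝ) ^ (h j + 1) := one_le_pow₀ (by norm_num)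
  have h4 : 0 < (8:ℝ) ^ (h j) := by positivity
  rw [h2]
  nlinarith [mul_pos (lt_of_lt_of_le one_pos h3) h4, mul_le_mul_of_nonneg_left h3 h4.le]

theorem xs_int {j i n : ℕ} (hn : nn j < n) :
    xs j i = (((2 * foot j i + 1) * (4 * 8 ^ (n - nn j - 1)) : ℕ) : ℝ) / 8 ^ n := by
  unfold xs
  obtain ⟨m, rfl⟩ : ∃ m, n = nn j + 1 + m := ⟨n - nn j - 1, by omega⟩
  have h1 : nn j + 1 + m - nn j - 1 = m := by omega
  rw [h1]
  have h2 : (8:ℝ) ^ (nn j + 1 + m) = 8 ^ nn j * (8 * 8 ^ m) := by ring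
  rw [h2, div_eq_div_iff (by positivity) (by positivity)]
  push_cast
  ring

theorem no_int_between {a : ℝ} {k m : ℕ} {d : ℝ} (hd : 0 < d) (h1 : (k : ℝ) / d < a)
    (h2 : a < ((k : ℝ) + 1) / d) (h3 : a = (m : ℝ) / d) : False := by
  subst h3
  rw [div_lt_div_iff_of_pos_right hd] at h1 h2
  have h4 : k < m := by exact_mod_cast h1
  have h5 : m < k + 1 := by exact_mod_cast h2
  omega

theorem int_unique {a : ℝ} {k m : ℕ} {d : ℝ} (hd : 0 < d) (h1 : (k : ℝ) / d < a)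
    (h2 : a < ((k : ℝ) + 1) / d) (h3 : (m : ℝ) / d < a) (h4 : a < ((m : ℝ) + 1) / d) : k = m := by
  have h5 := h1.trans h4
  have h6 := h3.trans h2
  rw [div_lt_div_iff_of_pos_right hd] at h5 h6
  have h7 : k < m + 1 := by exact_mod_cast h5
  have h8 : m < k + 1 := by exact_mod_cast h6
  omega

theorem xs_inj {j i j' i' : ℕ} (e : xs j i = xs j' i') : j = j' ∧ i = i' := by
  have key : ∀ {j i j' i' : ℕ}, j < j' → xs j i = xs j' i' → False := by
    intro j i j' i' hlt e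
    have h1 := xs_int (i := i) (nn_lt_h hlt)
    exact no_int_between (by positivity) (xs_lb j' i') (xs_ub j' i') (e.symm.trans h1)
  rcases lt_trichotomy j j' with h1 | h1 | h1
  · exact (key h1 e).elim
  · subst h1
    refine ⟨rfl, ?_⟩
    exact int_unique (d := 8 ^ (h j)) (by positivity) (xs_lb j i) (xs_ub j i)
      (e ▸ xs_lb j i') (e ▸ xs_ub j i')
  · exact (key h1 e.symm).elim

theorem half_lt {a b : ℕ} : ((1:ℝ) / 2) ^ a < (1 / 2) ^ b ↔ b < a :=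
  pow_lt_pow_iff_right_of_lt_one₀ (by norm_num) (by norm_num)

theorem half_strip {y : ℝ} {n m : ℕ} (h1 : (1 / 2 : ℝ) ^ (n + 1) < y) (h2 : y < (1 / 2) ^ n)
    (h3 : (1 / 2 : ℝ) ^ (m + 1) < y) (h4 : y < (1 / 2) ^ m) : n = m := by
  have h5 := half_lt.mp (h1.trans h4)
  have h6 := half_lt.mp (h3.trans h2)
  omega

theorem half_strip' {y : ℝ} {n m : ℕ} (h1 : (1 / 2 : ℝ) ^ (n + 1) < y) (h2 : y < (1 / 2) ^ n)
    (h3 : y = (1 / 2) ^ m) : False := by
  subst h3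
  have h5 := half_lt.mp h1
  have h6 := half_lt.mp h2
  omega

theorem half_pos (n : ℕ) : (0:ℝ) < (1 / 2) ^ n := by positivity

theorem half_inj {n m : ℕ} (e : ((1:ℝ) / 2) ^ n = (1 / 2) ^ m) : n = m := by
  rcases lt_trichotomy n m with h1 | h1 | h1
  · exact absurd e (half_lt.mpr h1).ne'
  · exact h1
  · exact absurd e (half_lt.mpr h1).ne

theorem X_F (n k : ℕ) (hk : k < 8 ^ n) : X (.F n k hk) = ((k : ℝ) + 1 / 2) / 8 ^ n := rfl
theorem X_T (j i : ℕ) (hi : i < 8 ^ (h j)) : X (.T j i hi) = xs j i := rfl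

theorem X_F_mem (n k : ℕ) (hk : k < 8 ^ n) :
    (k : ℝ) / 8 ^ n < X (.F n k hk) ∧ X (.F n k hk) < ((k : ℝ) + 1) / 8 ^ n := by
  rw [X_F, div_lt_div_iff_of_pos_right (by positivity), div_lt_div_iff_of_pos_right (by positivity)]
  constructor <;> linarith

/-- The child interval is inside the parent interval. -/
theorem child_interval {b c d k k' : ℕ} (e : k' / 8 ^ d = k) (hc : c = b + d) {x : ℝ}
    (h1 : (k' : ℝ) / 8 ^ c < x) (h2 : x < ((k' : ℝ) + 1) / 8 ^ c) :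
    (k : ℝ) / 8 ^ b < x ∧ x < ((k : ℝ) + 1) / 8 ^ b := by
  subst hc
  have hd : 0 < (8:ℕ) ^ d := by positivity
  have h3 : k * 8 ^ d ≤ k' := by rw [← e]; exact Nat.div_mul_le_self _ _
  have h4 : k' + 1 ≤ (k + 1) * 8 ^ d := by
    rw [← e]; exact Nat.lt_mul_of_div_lt (Nat.lt_succ_self _) hd
  have h3' : (k : ℝ) * 8 ^ d ≤ k' := by exact_mod_cast h3
  have h4' : (k' : ℝ) + 1 ≤ ((k : ℝ) + 1) * 8 ^ d := by exact_mod_cast h4
  constructor
  · refine lt_of_le_of_lt ?_ h1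
    rw [div_le_div_iff₀ (by positivity) (by positivity), pow_add]
    nlinarith [pow_pos (show (0:ℝ) < 8 by norm_num) b]
  · refine lt_of_lt_of_le h2 ?_
    rw [div_le_div_iff₀ (by positivity) (by positivity), pow_add]
    nlinarith [pow_pos (show (0:ℝ) < 8 by norm_num) b]

theorem convex_mem {a b c d t : ℝ} (h1 : a < b) (h2 : b < c) (h3 : a < d) (h4 : d < c)
    (h5 : 0 < t) (h6 : t < 1) : a < b + t * (d - b) ∧ b + t * (d - b) < c := by
  constructor <;> nlinarith [mul_pos h5 (sub_pos.mpr h3), mul_pos h5 (sub_pos.mpr h4),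
    mul_pos (sub_pos.mpr h6) (sub_pos.mpr h1), mul_pos (sub_pos.mpr h6) (sub_pos.mpr h2)]

/-- open strip information for `fp` edges -/
theorem fp_info {n k k' : ℕ} (hk : k < 8 ^ n) (hk' : k' < 8 ^ (n + 1)) (e : k' / 8 = k) {t : ℝ}
    (h5 : 0 < t) (h6 : t < 1) {z : ℂ} (hz : z = arc (.F n k hk) (.F (n + 1) k' hk') t) :
    (1 / 2 : ℝ) ^ (n + 1) < -z.im ∧ -z.im < (1 / 2) ^ n ∧ (k : ℝ) / 8 ^ n < z.re ∧
      z.re < ((k : ℝ) + 1) / 8 ^ n := by
  subst hz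
  have hm := X_F_mem n k hk
  have hm' := X_F_mem (n + 1) k' hk'
  have e' : k' / 8 ^ 1 = k := by rw [pow_one]; exact e
  have hc := child_interval (b := n) (c := n + 1) e' rfl hm'.1 hm'.2
  have hx := convex_mem hm.1 hm.2 hc.1 hc.2 h5 h6
  have hp := half_pos n
  refine ⟨?_, ?_, hx.1, hx.2⟩
  · simp only [arc, Y]
    rw [pow_succ]; nlinarith
  · simp only [arc, Y]
    rw [pow_succ]; nlinarith

theorem fh_info {n k : ℕ} (hk : k < 8 ^ n) (hk' : k + 1 < 8 ^ n) {t : ℝ}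
    (h5 : 0 < t) (h6 : t < 1) {z : ℂ} (hz : z = arc (.F n k hk) (.F n (k + 1) hk') t) :
    -z.im = (1 / 2) ^ n ∧ ((k : ℝ) + 1 / 2) / 8 ^ n < z.re ∧
      z.re < ((k : ℝ) + 3 / 2) / 8 ^ n := by
  subst hz
  have hp : (0:ℝ) < 8 ^ n := by positivity
  have e : (arc (.F n k hk) (.F n (k + 1) hk') t).re = ((k:ℝ) + 1/2 + t) / 8^n := by
    simp only [arc, X]; push_cast; ring
  refine ⟨by simp only [arc, Y]; ring, ?_, ?_⟩
  · rw [e, div_lt_div_iff_of_pos_right hp]; linarith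
  · rw [e, div_lt_div_iff_of_pos_right hp]; linarith

theorem tp_info {j i i' : ℕ} (hi : i < 8 ^ (h j)) (hi' : i' < 8 ^ (h (j + 1)))
    (e : i' / 8 ^ (h (j + 1) - h j) = i) {t : ℝ} (h5 : 0 < t) (h6 : t < 1)
    {z : ℂ} (hz : z = arc (.T j i hi) (.T (j + 1) i' hi') t) :
    (1 / 2 : ℝ) ^ (j + 1) < z.im ∧ z.im < (1 / 2) ^ j ∧ (i : ℝ) / 8 ^ (h j) < z.re ∧
      z.re < ((i : ℝ) + 1) / 8 ^ (h j) := by
  subst hz
  have hle : h j ≤ h (j + 1) := h_mono (Nat.le_succ j)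
  have hc := child_interval (b := h j) (c := h (j + 1)) (d := h (j + 1) - h j) (k := i) (k' := i')
    e (by omega) (xs_lb (j + 1) i') (xs_ub (j + 1) i')
  have hx := convex_mem (xs_lb j i) (xs_ub j i) hc.1 hc.2 h5 h6
  have hp := half_pos j
  refine ⟨?_, ?_, hx.1, hx.2⟩
  · simp only [arc, Y]
    rw [pow_succ]; nlinarith
  · simp only [arc, Y]
    rw [pow_succ]; nlinarith

theorem rg_info {j i : ℕ} (hi : i < 8 ^ (h j)) (hf : foot j i < 8 ^ (nn j)) {t : ℝ}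
    (h5 : 0 < t) (h6 : t < 1) {z : ℂ} (hz : z = arc (.T j i hi) (.F (nn j) (foot j i) hf) t) :
    z.re = xs j i ∧ z.im < (1 / 2) ^ j ∧ -z.im < (1 / 2) ^ (nn j) := by
  subst hz
  have hp := half_pos j
  have hp' := half_pos (nn j)
  refine ⟨?_, ?_, ?_⟩
  · simp only [arc, X, xs]; ring
  · simp only [arc, Y]
    nlinarith
  · simp only [arc, Y]
    nlinarith

end Pool.Agent.Lib.MP_a838d0_pr
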