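import Mathlib
import Pool.Agent.Lib.MP_a838d0_pr.Planar

set_option autoImplicit false

/-! `G` is connected, locally finite and has minimal degree at least `7`. -/

namespace Pool.Agent.Lib.MP_a838d0_pr

/-- the root of `F` -/
def root : Vtx := .F 0 0 (by norm_num)

theorem reach_F (n : ℕ) : ∀ (k : ℕ) (hk : k < 8 ^ n), G.Reachable root (.F n k hk) := by
  induction n with
  | zero =>
    intro k hk
    obtain rfl : k = 0 := by simpa using hk
    exact SimpleGraph.Reachable.refl _
  | succ n ih =>
    intro k hk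
    have hk' : k / 8 < 8 ^ n := by
      rw [pow_succ] at hk
      exact Nat.div_lt_of_lt_mul (by rwa [mul_comm])
    exact (ih _ hk').trans (SimpleGraph.Adj.reachable (Or.inl (Adj0.fp n _ k hk' hk rfl)))

theorem reach_T (j i : ℕ) (hi : i < 8 ^ (h j)) : G.Reachable root (.T j i hi) :=
  (reach_F _ _ (foot_lt j i hi)).trans
    (SimpleGraph.Adj.reachable (Or.inr (Adj0.rg j i hi (foot_lt j i hi))))

theorem connected : G.Connected := by
  have : Nonempty Vtx := ⟨root⟩
  refine SimpleGraph.Connected.mk ?_
  have key : ∀ v, G.Reachable root v := by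
    intro v
    cases v with
    | F n k hk => exact reach_F n k hk
    | T j i hi => exact reach_T j i hi
  intro u v
  exact (key u).symm.trans (key v)

/-- rank of a vertex -/
def rk : Vtx → ℕ
  | .F n _ _ => n
  | .T j _ _ => j

theorem rk_finite (N : ℕ) : {v : Vtx | rk v ≤ N}.Finite := by
  have h1 : {v : Vtx | rk v ≤ N} ⊆
      (⋃ n ∈ Set.Iic N, Set.range (fun k : Fin (8 ^ n) => Vtx.F n k.1 k.2)) ∪
      (⋃ j ∈ Set.Iic N, Set.range (fun k : Fin (8 ^ (h j)) => Vtx.T j k.1 k.2)) := by
    intro v hv
    cases v with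
    | F n k hk =>
      left
      simp only [Set.mem_iUnion]
      exact ⟨n, hv, ⟨⟨k, hk⟩, rfl⟩⟩
    | T j k hk =>
      right
      simp only [Set.mem_iUnion]
      exact ⟨j, hv, ⟨⟨k, hk⟩, rfl⟩⟩
  refine Set.Finite.subset (Set.Finite.union ?_ ?_) h1
  · exact Set.Finite.biUnion (Set.finite_Iic N) (fun n _ => Set.finite_range _)
  · exact Set.Finite.biUnion (Set.finite_Iic N) (fun n _ => Set.finite_range _)

theorem j_le_nn (j : ℕ) : j ≤ nn j := (j_le_h j).trans (h_lt_nn j).le

theorem nn_mono {j j' : ℕ} (hj : j ≤ j') : nn j ≤ nn j' := by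
  unfold nn; have := h_mono hj; omega

theorem Adj0.rk_le {u v : Vtx} (e : Adj0 u v) : rk u ≤ rk v ∧ rk v ≤ nn (rk u) + 1 := by
  cases e with
  | fp n k k' hk hk' e =>
    simp only [rk]
    have := j_le_nn n
    omega
  | fh n k hk hk' hc =>
    simp only [rk]
    have := j_le_nn n
    omega
  | tp j i i' hi hi' e =>
    simp only [rk]
    have := j_le_nn j
    omega
  | rg j i hi hf =>
    simp only [rk]
    have := j_le_nn j
    omega

theorem neighborSet_finite (v : Vtx) : (G.neighborSet v).Finite := by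
  refine (rk_finite (nn (rk v) + 1)).subset ?_
  intro w hw
  rcases hw with e | e
  · exact e.rk_le.2
  · have := e.rk_le.1
    have := j_le_nn (rk v)
    show rk w ≤ nn (rk v) + 1
    omega

noncomputable instance locallyFinite : G.LocallyFinite := fun v => (neighborSet_finite v).fintype

theorem eight_le_degree (v : Vtx) (s : Fin 8 → Vtx) (hs : Function.Injective s)
    (ha : ∀ r, G.Adj v (s r)) : 7 ≤ G.degree v := by
  classical
  have h1 : (Finset.univ.image s) ⊆ G.neighborFinset v := by
    intro w hw
    rw [Finset.mem_image] at hw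
    obtain ⟨r, _, rfl⟩ := hw
    rw [SimpleGraph.mem_neighborFinset]
    exact ha r
  have h2 := Finset.card_le_card h1
  rw [Finset.card_image_of_injective _ hs, SimpleGraph.card_neighborFinset_eq_degree] at h2
  simp at h2
  omega

theorem seven_le_degree (v : Vtx) : 7 ≤ G.degree v := by
  cases v with
  | F n k hk =>
    have hb : ∀ r : Fin 8, 8 * k + r.1 < 8 ^ (n + 1) := by
      intro r
      have := r.2
      rw [pow_succ]; omega
    refine eight_le_degree _ (fun r => .F (n + 1) (8 * k + r.1) (hb r)) ?_ ?_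
    · intro a b hab
      simp only [Vtx.F.injEq] at hab
      apply Fin.ext
      omega
    · intro r
      refine Or.inl (Adj0.fp n k _ hk (hb r) ?_)
      have := r.2
      omega
  | T j i hi =>
    have hle : h j + 1 ≤ h (j + 1) := by
      have := nn_lt_h_succ j
      have := h_lt_nn j
      omega
    have h8 : 8 ≤ 8 ^ (h (j + 1) - h j) := by
      calc 8 = 8 ^ 1 := by norm_num
        _ ≤ _ := Nat.pow_le_pow_right (by norm_num) (by omega)
    have hmul : 8 ^ (h (j + 1)) = 8 ^ (h j) * 8 ^ (h (j + 1) - h j) := by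
      rw [← pow_add]; congr 1; omega
    have hb : ∀ r : Fin 8, i * 8 ^ (h (j + 1) - h j) + r.1 < 8 ^ (h (j + 1)) := by
      intro r
      have := r.2
      rw [hmul]
      calc i * 8 ^ (h (j + 1) - h j) + r.1 < (i + 1) * 8 ^ (h (j + 1) - h j) := by
            rw [add_mul, one_mul]; omega
        _ ≤ _ := Nat.mul_le_mul_right _ hi
    refine eight_le_degree _ (fun r => .T (j + 1) (i * 8 ^ (h (j + 1) - h j) + r.1) (hb r)) ?_ ?_
    · intro a b hab
      simp only [Vtx.T.injEq] at hab
      apply Fin.ext
      omega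
    · intro r
      refine Or.inl (Adj0.tp j i _ hi (hb r) ?_)
      have := r.2
      rw [Nat.div_eq_of_lt_le]
      · omega
      · rw [add_mul, one_mul]; omega

end Pool.Agent.Lib.MP_a838d0_pr
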