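import Mathlib
import Pool.Agent.Lib.MP_a838d0_pr.Planar

set_option autoImplicit false

/-! Boundary connectivity in the graph `F`: a parity (potential) argument. -/

namespace Pool.Agent.Lib.MP_a838d0_pr

/-- directed edges of `F` on pairs -/
inductive FE : ℕ × ℕ → ℕ × ℕ → Prop
  | up (n k k' : ℕ) (hk' : k' < 8 ^ (n + 1)) (e : k' / 8 = k) : FE (n, k) (n + 1, k')
  | hor (n k : ℕ) (hk' : k + 1 < 8 ^ n) (hc : ¬ cut n k) : FE (n, k) (n, k + 1)

/-- edges of `F` on pairs -/
def FA (a b : ℕ × ℕ) : Prop := FE a b ∨ FE b a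

theorem FA.symm {a b : ℕ × ℕ} (e : FA a b) : FA b a := Or.symm e

/-- star adjacency (directed) -/
def St0 (a b : ℕ × ℕ) : Prop :=
  (b.1 = a.1 ∧ b.2 = a.2 + 1) ∨ (b.1 = a.1 + 1 ∧ 8 * a.2 ≤ b.2 + 1 ∧ b.2 ≤ 8 * a.2 + 8)

/-- star adjacency -/
def St (a b : ℕ × ℕ) : Prop := St0 a b ∨ St0 b a

theorem St.symm {a b : ℕ × ℕ} (e : St a b) : St b a := Or.symm e

theorem St.ne {a b : ℕ × ℕ} (e : St a b) : a ≠ b := by
  rintro rfl
  rcases e with (⟨_, e⟩ | ⟨e, _⟩) | (⟨_, e⟩ | ⟨e, _⟩) <;> omega

theorem cut_parent {n k : ℕ} (hk : (k + 1) / 8 = k / 8 + 1) (hc : cut n (k / 8)) :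
    cut (n + 1) k := by
  obtain ⟨j, i, h1, h2⟩ := hc
  refine ⟨j, i, by omega, ?_⟩
  have h3 : n + 1 - nn j - 1 = (n - nn j - 1) + 1 := by omega
  rw [h3, pow_succ]
  have h4 : k + 1 = 8 * (k / 8 + 1) := by omega
  rw [h4, h2]
  ring

section Potential

variable (M W A1 : ℕ × ℕ → Prop)

/-- crossing of an edge -/
def Cr (a b : ℕ × ℕ) : Prop := (A1 a ∧ M b) ∨ (A1 b ∧ M a)

open Classical in
/-- the potential -/
noncomputable def phi : ℕ → ℕ → Bool
  | 0, _ => false
  | (n+1), k => xor (phi n (k / 8)) (decide (Cr M A1 (n, k / 8) (n + 1, k)))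

variable {M W A1}

theorem Cr_symm {a b : ℕ × ℕ} : Cr M A1 a b ↔ Cr M A1 b a := by
  unfold Cr; tauto

/-- structure of the hypotheses -/
structure Sep (M W A1 : ℕ × ℕ → Prop) : Prop where
  disj : ∀ a, W a → ¬ M a
  sub : ∀ a, A1 a → W a
  closed : ∀ a b, W a → FA a b → ¬ M b → W b
  star : ∀ a b m, A1 a → St a b → W b → FA b m → M m → A1 b

theorem tri (S : Sep M W A1) {p a b : ℕ × ℕ} (hpa : FA p a) (hpb : FA p b) (hab : FA a b)
    (spa : St p a) (spb : St p b) (sab : St a b) :
    (Cr M A1 a b ↔ ¬ (Cr M A1 p a ↔ Cr M A1 p b)) := by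
  have d1 := S.disj p
  have d2 := S.disj a
  have d3 := S.disj b
  have s1 := S.sub p
  have s2 := S.sub a
  have s3 := S.sub b
  have c1 := S.closed p a
  have c2 := S.closed a p
  have c3 := S.closed p b
  have c4 := S.closed b p
  have c5 := S.closed a b
  have c6 := S.closed b a
  have t1 := S.star p a b
  have t2 := S.star p b a
  have t3 := S.star a p b
  have t4 := S.star a b p
  have t5 := S.star b p a
  have t6 := S.star b a p
  have := hpa.symm
  have := hpb.symm
  have := hab.symm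
  have := spa.symm
  have := spb.symm
  have := sab.symm
  unfold Cr
  by_cases m1 : M p <;> by_cases m2 : M a <;> by_cases m3 : M b <;>
  by_cases a1 : A1 p <;> by_cases a2 : A1 a <;> by_cases a3 : A1 b <;> simp_all

theorem quad (S : Sep M W A1) {p p' a b : ℕ × ℕ} (hpa : FA p a) (hpb : FA p' b) (hab : FA a b)
    (hpp : FA p p') (spa : St p a) (spb : St p b) (sab : St a b) (spp : St p p')
    (spa' : St p' a) (spb' : St p' b) :
    (Cr M A1 a b ↔ ¬ (Cr M A1 p a ↔ ¬ (Cr M A1 p' b ↔ Cr M A1 p p'))) := by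
  have d1 := S.disj p
  have d2 := S.disj a
  have d3 := S.disj b
  have d4 := S.disj p'
  have s1 := S.sub p
  have s2 := S.sub a
  have s3 := S.sub b
  have s4 := S.sub p'
  have c1 := S.closed p a
  have c2 := S.closed a p
  have c3 := S.closed p' b
  have c4 := S.closed b p'
  have c5 := S.closed a b
  have c6 := S.closed b a
  have c7 := S.closed p p'
  have c8 := S.closed p' p
  have t1 := S.star p a b
  have t2 := S.star p b a
  have t2' := S.star p b p'
  have t3 := S.star p p' b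
  have t4 := S.star a p p'
  have t5 := S.star a b p'
  have t6 := S.star a p' p
  have t6' := S.star a p' b
  have t7 := S.star b a p
  have t8 := S.star b p' p
  have t9 := S.star b p a
  have t9' := S.star b p p'
  have t10 := S.star p' p a
  have t11 := S.star p' b a
  have t12 := S.star p' a b
  have t12' := S.star p' a p
  have := hpa.symm
  have := hpb.symm
  have := hab.symm
  have := hpp.symm
  have := spa.symm
  have := spb.symm
  have := sab.symm
  have := spp.symm
  have := spa'.symm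
  have := spb'.symm
  unfold Cr
  by_cases m1 : M p <;> by_cases m2 : M a <;> by_cases m3 : M b <;> by_cases m4 : M p' <;>
  by_cases a1 : A1 p <;> by_cases a2 : A1 a <;> by_cases a3 : A1 b <;> by_cases a4 : A1 p' <;>
  simp_all

end Potential

end Pool.Agent.Lib.MP_a838d0_pr
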