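import Mathlib
import Pool.Agent.Lib.MP_a838d0_pr.Star

set_option autoImplicit false

/-! Boundary connectivity in the graph `F`: conclusion of the parity argument. -/

namespace Pool.Agent.Lib.MP_a838d0_pr

variable {M W A1 : ℕ × ℕ → Prop}

theorem phi_up (n k : ℕ) :
    phi M A1 n (k / 8) ≠ phi M A1 (n + 1) k ↔ Cr M A1 (n, k / 8) (n + 1, k) := by
  classical
  rw [phi]
  by_cases h : Cr M A1 (n, k / 8) (n + 1, k)
  · simp [h]
  · simp [h]

theorem phi_hor (S : Sep M W A1) (n : ℕ) : ∀ k, k + 1 < 8 ^ n → ¬ cut n k →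
    (phi M A1 n k ≠ phi M A1 n (k + 1) ↔ Cr M A1 (n, k) (n, k + 1)) := by
  induction n with
  | zero => intro k hk; simp at hk
  | succ n ih =>
    intro k hk hc
    have hab : FA (n + 1, k) (n + 1, k + 1) := Or.inl (FE.hor _ _ hk hc)
    have hpa : FA (n, k / 8) (n + 1, k) := Or.inl (FE.up _ _ _ (by omega) rfl)
    have sab : St (n + 1, k) (n + 1, k + 1) := Or.inl (Or.inl ⟨rfl, rfl⟩)
    have spa : St (n, k / 8) (n + 1, k) :=
      Or.inl (Or.inr ⟨rfl, by dsimp only; omega, by dsimp only; omega⟩)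
    have u1 := phi_up (M := M) (A1 := A1) n k
    have u2 := phi_up (M := M) (A1 := A1) n (k + 1)
    rcases (show (k + 1) / 8 = k / 8 ∨ (k + 1) / 8 = k / 8 + 1 by omega) with h1 | h1
    · rw [h1] at u2
      have hpb : FA (n, k / 8) (n + 1, k + 1) := Or.inl (FE.up _ _ _ hk h1)
      have spb : St (n, k / 8) (n + 1, k + 1) :=
        Or.inl (Or.inr ⟨rfl, by dsimp only; omega, by dsimp only; omega⟩)
      have := tri S hpa hpb hab spa spb sab
      rw [this, ← u1, ← u2]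
      cases phi M A1 n (k / 8) <;> cases phi M A1 (n + 1) k <;> cases phi M A1 (n + 1) (k + 1) <;>
        simp
    · rw [h1] at u2
      have hk8 : k / 8 + 1 < 8 ^ n := by
        rw [pow_succ] at hk; omega
      have hc8 : ¬ cut n (k / 8) := fun h => hc (cut_parent h1 h)
      have u3 := ih (k / 8) hk8 hc8
      have hpp : FA (n, k / 8) (n, k / 8 + 1) := Or.inl (FE.hor _ _ hk8 hc8)
      have hpb : FA (n, k / 8 + 1) (n + 1, k + 1) := Or.inl (FE.up _ _ _ hk h1)
      have spb : St (n, k / 8) (n + 1, k + 1) :=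
        Or.inl (Or.inr ⟨rfl, by dsimp only; omega, by dsimp only; omega⟩)
      have spp : St (n, k / 8) (n, k / 8 + 1) := Or.inl (Or.inl ⟨rfl, rfl⟩)
      have spa' : St (n, k / 8 + 1) (n + 1, k) :=
        Or.inl (Or.inr ⟨rfl, by dsimp only; omega, by dsimp only; omega⟩)
      have spb' : St (n, k / 8 + 1) (n + 1, k + 1) :=
        Or.inl (Or.inr ⟨rfl, by dsimp only; omega, by dsimp only; omega⟩)
      have := quad S hpa hpb hab hpp spa spb sab spp spa' spb'
      rw [this, ← u1, ← u2, ← u3]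
      cases phi M A1 n (k / 8) <;> cases phi M A1 n (k / 8 + 1) <;>
        cases phi M A1 (n + 1) k <;> cases phi M A1 (n + 1) (k + 1) <;>
        simp

theorem phi_FE (S : Sep M W A1) {a b : ℕ × ℕ} (e : FE a b) :
    (phi M A1 a.1 a.2 ≠ phi M A1 b.1 b.2 ↔ Cr M A1 a b) := by
  cases e with
  | up n k k' hk' e => subst e; exact phi_up n k'
  | hor n k hk' hc => exact phi_hor S n k hk' hc

theorem phi_FA (S : Sep M W A1) {a b : ℕ × ℕ} (e : FA a b) :
    (phi M A1 a.1 a.2 ≠ phi M A1 b.1 b.2 ↔ Cr M A1 a b) := by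
  rcases e with e | e
  · exact phi_FE S e
  · rw [ne_comm, phi_FE S e]; exact Cr_symm

theorem phi_const (S : Sep M W A1) {Z : ℕ × ℕ → Prop}
    (hZ : ∀ a b, Z a → Z b → ¬ Cr M A1 a b) {a b : ℕ × ℕ}
    (hab : Relation.ReflTransGen (fun x y => FA x y ∧ Z x ∧ Z y) a b) :
    phi M A1 a.1 a.2 = phi M A1 b.1 b.2 := by
  induction hab with
  | refl => rfl
  | tail _ h2 ih =>
    rw [ih]
    by_contra h3
    exact hZ _ _ h2.2.1 h2.2.2 ((phi_FA S h2.1).mp h3)

/-- Boundary connectivity. -/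
theorem star_conn (S : Sep M W A1)
    (hM : ∀ a b, M a → M b → Relation.ReflTransGen (fun x y => FA x y ∧ M x ∧ M y) a b)
    (hW : ∀ a b, W a → W b → Relation.ReflTransGen (fun x y => FA x y ∧ W x ∧ W y) a b)
    {a1 m1 a2 m2 : ℕ × ℕ} (h1 : A1 a1) (hm1 : M m1) (e1 : FA a1 m1)
    (h2 : W a2) (hm2 : M m2) (e2 : FA a2 m2) : A1 a2 := by
  by_contra h3
  have q1 : phi M A1 a1.1 a1.2 ≠ phi M A1 m1.1 m1.2 := (phi_FA S e1).mpr (Or.inl ⟨h1, hm1⟩)
  have q2 : phi M A1 a2.1 a2.2 = phi M A1 m2.1 m2.2 := by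
    by_contra h4
    rcases (phi_FA S e2).mp h4 with h5 | h5
    · exact h3 h5.1
    · exact S.disj _ (S.sub _ h5.1) hm2
  have q3 : phi M A1 m1.1 m1.2 = phi M A1 m2.1 m2.2 := by
    refine phi_const S (Z := M) ?_ (hM _ _ hm1 hm2)
    rintro a b ha hb (h | h)
    · exact S.disj _ (S.sub _ h.1) ha
    · exact S.disj _ (S.sub _ h.1) hb
  have q4 : phi M A1 a1.1 a1.2 = phi M A1 a2.1 a2.2 := by
    refine phi_const S (Z := W) ?_ (hW _ _ (S.sub _ h1) h2)
    rintro a b ha hb (h | h)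
    · exact S.disj _ hb h.2
    · exact S.disj _ ha h.2
  apply q1
  rw [q4, q2, q3]

end Pool.Agent.Lib.MP_a838d0_pr
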