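import Mathlib
import Pool.Agent.Lib.MP_a838d0_pr.Star2

set_option autoImplicit false

/-! Metric estimates for closed star paths and special boundary points. -/

namespace Pool.Agent.Lib.MP_a838d0_pr

/-- abscissa of a pair -/
noncomputable def xx (a : ℕ × ℕ) : ℝ := ((a.2 : ℝ) + 1 / 2) / 8 ^ a.1

theorem St0_dist {a b : ℕ × ℕ} (e : St0 a b) : |xx b - xx a| ≤ 1 / 8 ^ a.1 := by
  rcases e with ⟨e1, e2⟩ | ⟨e1, e2, e3⟩
  · have : xx b - xx a = 1 / 8 ^ a.1 := by
      unfold xx; rw [e1, e2]; push_cast; ring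
    rw [this, abs_of_pos (by positivity)]
  · have hp : (0:ℝ) < 8 ^ a.1 := by positivity
    have : xx b - xx a = (((b.2 : ℝ) - 8 * a.2 - 7 / 2) / 8) * (1 / 8 ^ a.1) := by
      unfold xx; rw [e1, pow_succ]; field_simp; ring
    rw [this, abs_mul, abs_of_pos (show (0:ℝ) < 1 / 8 ^ a.1 by positivity)]
    have e2' : 8 * (a.2 : ℝ) ≤ b.2 + 1 := by exact_mod_cast e2
    have e3' : (b.2 : ℝ) ≤ 8 * a.2 + 8 := by exact_mod_cast e3
    have h1 : |((b.2 : ℝ) - 8 * a.2 - 7 / 2) / 8| ≤ 1 := by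
      rw [abs_le]; constructor <;> linarith
    calc _ ≤ 1 * (1 / 8 ^ a.1 : ℝ) := by
          apply mul_le_mul_of_nonneg_right h1 (by positivity)
      _ = _ := one_mul _

theorem St_row {a b : ℕ × ℕ} (e : St a b) : a.1 ≤ b.1 + 1 ∧ b.1 ≤ a.1 + 1 := by
  rcases e with (⟨e, _⟩ | ⟨e, _⟩) | (⟨e, _⟩ | ⟨e, _⟩) <;> omega

theorem St_dist {a b : ℕ × ℕ} (e : St a b) : |xx b - xx a| ≤ 8 / 8 ^ a.1 := by
  rcases e with e | e
  · refine (St0_dist e).trans ?_
    apply div_le_div_of_nonneg_right (by norm_num) (by positivity)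
  · have h1 := St0_dist e
    have h2 := (St_row (Or.inl e)).2
    rw [abs_sub_comm] at h1
    refine h1.trans ?_
    rw [div_le_div_iff₀ (by positivity) (by positivity), one_mul]
    calc (8:ℝ) ^ a.1 ≤ 8 ^ (b.1 + 1) := pow_le_pow_right₀ (by norm_num) h2
      _ = 8 * 8 ^ b.1 := by ring

/-- graph of closed vertices with star adjacency -/
def SG (Cl : ℕ × ℕ → Prop) : SimpleGraph (ℕ × ℕ) where
  Adj a b := St a b ∧ Cl a ∧ Cl b
  symm := ⟨fun _ _ e => ⟨e.1.symm, e.2.2, e.2.1⟩⟩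
  loopless := ⟨fun _ e => e.1.ne rfl⟩

theorem walk_row {Cl : ℕ × ℕ → Prop} {a b : ℕ × ℕ} (p : (SG Cl).Walk a b) :
    a.1 ≤ b.1 + p.length ∧ b.1 ≤ a.1 + p.length := by
  induction p with
  | nil => simp
  | cons e p ih =>
    have := St_row e.1
    rw [SimpleGraph.Walk.length_cons]
    omega

theorem walk_dist {Cl : ℕ × ℕ → Prop} {a b : ℕ × ℕ} (p : (SG Cl).Walk a b) :
    |xx b - xx a| ≤ p.length * 8 ^ p.length / 8 ^ a.1 := by
  induction p with
  | nil => simp
  | @cons a c b e p ih =>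
    have h1 := St_dist e.1
    have h2 := (St_row e.1).1
    rw [SimpleGraph.Walk.length_cons]
    have h3 : (p.length : ℝ) * 8 ^ p.length / 8 ^ c.1 ≤
        (p.length : ℝ) * 8 ^ (p.length + 1) / 8 ^ a.1 := by
      rw [div_le_div_iff₀ (by positivity) (by positivity)]
      have h4 : (8:ℝ) ^ a.1 ≤ 8 * 8 ^ c.1 := by
        calc (8:ℝ) ^ a.1 ≤ 8 ^ (c.1 + 1) := pow_le_pow_right₀ (by norm_num) h2
          _ = 8 * 8 ^ c.1 := by ring
      calc (p.length : ℝ) * 8 ^ p.length * 8 ^ a.1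
          ≤ (p.length : ℝ) * 8 ^ p.length * (8 * 8 ^ c.1) :=
            mul_le_mul_of_nonneg_left h4 (by positivity)
        _ = _ := by ring
    have h5 : (8:ℝ) / 8 ^ a.1 ≤ 8 ^ (p.length + 1) / 8 ^ a.1 := by
      apply div_le_div_of_nonneg_right _ (by positivity)
      calc (8:ℝ) = 8 ^ 1 := by norm_num
        _ ≤ _ := pow_le_pow_right₀ (by norm_num) (by omega)
    have h6 : |xx b - xx a| ≤ |xx b - xx c| + |xx c - xx a| := abs_sub_le _ _ _
    push_cast
    calc |xx b - xx a| ≤ _ := h6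
      _ ≤ (p.length : ℝ) * 8 ^ (p.length + 1) / 8 ^ a.1 + 8 ^ (p.length + 1) / 8 ^ a.1 := by
          linarith
      _ = _ := by ring

/-- special abscissae: the two sides and the rungs -/
inductive Sp : ℝ → ℕ → ℕ → Prop
  | left : Sp 0 0 0
  | right : Sp 1 0 0
  | slit (j i : ℕ) : Sp (xs j i) (h j) (nn j)

theorem Sp.two_mul_le {x : ℝ} {h0 n0 : ℕ} (s : Sp x h0 n0) : 2 * h0 ≤ n0 := by
  cases s with
  | left => simp
  | right => simp
  | slit j i => unfold nn; omega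

theorem xs_eq (j i : ℕ) : xs j i = ((i : ℝ) + 1 / 2 + 1 / (2 * 8 ^ (h j + 2))) / 8 ^ (h j) := by
  unfold xs foot nn
  have h1 : (8:ℝ) ^ (2 * h j + 2) = 8 ^ (h j) * 8 ^ (h j + 2) := by ring
  rw [h1]
  push_cast
  field_simp
  ring

theorem xs_far (j i : ℕ) (m : ℕ) : 1 / 4 / 8 ^ (h j) ≤ |xs j i - (m : ℝ) / 8 ^ (h j)| := by
  have hp : (0:ℝ) < 8 ^ (h j) := by positivity
  have h1 : xs j i - (m : ℝ) / 8 ^ (h j) =
      ((i : ℝ) - m + 1 / 2 + 1 / (2 * 8 ^ (h j + 2))) / 8 ^ (h j) := by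
    rw [xs_eq]; ring
  rw [h1, abs_div, abs_of_pos hp]
  apply div_le_div_of_nonneg_right _ hp.le
  have h2 : (1:ℝ) / (2 * 8 ^ (h j + 2)) ≤ 1 / 128 := by
    rw [div_le_div_iff₀ (by positivity) (by norm_num)]
    have : (1:ℝ) ≤ 8 ^ (h j) := one_le_pow₀ (by norm_num)
    rw [pow_add]; nlinarith
  have h3 : (0:ℝ) < 1 / (2 * 8 ^ (h j + 2)) := by positivity
  rcases le_or_gt m i with h4 | h4
  · have h5 : (m : ℝ) ≤ i := by exact_mod_cast h4
    rw [le_abs]; left; linarith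
  · have h5 : (i : ℝ) + 1 ≤ m := by exact_mod_cast h4
    rw [le_abs]; right; linarith

theorem Sp.far {x x' : ℝ} {h0 n0 h0' n0' : ℕ} (s : Sp x h0 n0) (s' : Sp x' h0' n0')
    (hh : h0' ≤ h0) (hne : x ≠ x') : 1 / 4 / 8 ^ h0 ≤ |x - x'| := by
  have hz : ∀ m : ℕ, (8:ℝ) ^ (h 0) = 1 := fun _ => by rw [h_zero]; norm_num
  cases s with
  | left =>
    cases s' with
    | left => exact absurd rfl hne
    | right => norm_num
    | slit j i =>
      have hj : j = 0 := by have := j_le_h j; omega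
      subst hj
      have := xs_far 0 i 0
      rw [abs_sub_comm]
      simpa [h_zero] using this
  | right =>
    cases s' with
    | left => norm_num
    | right => exact absurd rfl hne
    | slit j i =>
      have hj : j = 0 := by have := j_le_h j; omega
      subst hj
      have := xs_far 0 i 1
      rw [abs_sub_comm]
      simpa [h_zero] using this
  | slit j i =>
    cases s' with
    | left => simpa using xs_far j i 0
    | right =>
      have := xs_far j i (8 ^ (h j))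
      rw [Nat.cast_pow, Nat.cast_ofNat, div_self (by positivity)] at this
      exact this
    | slit j' i' =>
      rcases lt_trichotomy j' j with h1 | h1 | h1
      · rw [xs_int (i := i') (nn_lt_h h1)]
        exact xs_far j i _
      · subst h1
        have hne' : i ≠ i' := fun h => hne (by rw [h])
        have hp : (0:ℝ) < 8 ^ (h j') := by positivity
        have h2 : xs j' i - xs j' i' = ((i : ℝ) - i') / 8 ^ (h j') := by
          rw [xs_eq, xs_eq]; ring
        rw [h2, abs_div, abs_of_pos hp]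
        apply div_le_div_of_nonneg_right _ hp.le
        rcases lt_or_gt_of_ne hne' with h3 | h3
        · have : (i : ℝ) + 1 ≤ i' := by exact_mod_cast h3
          rw [le_abs]; right; linarith
        · have : (i' : ℝ) + 1 ≤ i := by exact_mod_cast h3
          rw [le_abs]; left; linarith
      · exfalso
        have := nn_lt_h h1
        have := h_lt_nn j
        omega

/-- the main hypothesis on closed star paths: a closed vertex of row `n` is connected by closed star paths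
only to vertices at distance `< n/8`. -/
def Short (Cl : ℕ × ℕ → Prop) : Prop :=
  ∀ a b, Cl a → (SG Cl).Reachable a b → ∃ p : (SG Cl).Walk a b, 8 * (p.length + 1) ≤ a.1

theorem no_two {Cl : ℕ × ℕ → Prop} (hS : Short Cl) {a b : ℕ × ℕ} (ha : Cl a)
    (hab : (SG Cl).Reachable a b) {x x' : ℝ} {h0 n0 h0' n0' : ℕ}
    (s : Sp x h0 n0) (s' : Sp x' h0' n0') (hh : h0' ≤ h0) (hne : x ≠ x')
    (hn : n0 ≤ a.1) (hax : |xx a - x| ≤ 1 / 2 / 8 ^ a.1)
    (hbx : |xx b - x'| ≤ 1 / 2 / 8 ^ b.1) : False := by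
  obtain ⟨p, hp⟩ := hS a b ha hab
  set L := p.length with hL
  have h1 := walk_dist p
  have h2 := (walk_row p).1
  have h3 := s.far s' hh hne
  rw [← hL] at h1 h2
  have h4 : |x - x'| ≤ |xx a - x| + |xx b - xx a| + |xx b - x'| := by
    have : x - x' = -(xx a - x) - (xx b - xx a) + (xx b - x') := by ring
    rw [this]
    calc _ ≤ |-(xx a - x) - (xx b - xx a)| + |xx b - x'| := abs_add_le _ _
      _ ≤ |-(xx a - x)| + |xx b - xx a| + |xx b - x'| := by
          gcongr; exact abs_sub _ _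
      _ = _ := by rw [abs_neg]
  have h5 : (1:ℝ) / 2 / 8 ^ b.1 ≤ 1 / 2 * 8 ^ L / 8 ^ a.1 := by
    rw [div_le_div_iff₀ (by positivity) (by positivity)]
    have : (8:ℝ) ^ a.1 ≤ 8 ^ L * 8 ^ b.1 := by
      rw [← pow_add]; exact pow_le_pow_right₀ (by norm_num) (by omega)
    linarith
  have h6 : (1:ℝ) / 2 / 8 ^ a.1 ≤ 1 / 2 * 8 ^ L / 8 ^ a.1 := by
    apply div_le_div_of_nonneg_right _ (by positivity)
    have : (1:ℝ) ≤ 8 ^ L := one_le_pow₀ (by norm_num)
    linarith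
  have h7 : (1:ℝ) / 4 / 8 ^ h0 ≤ (L + 1) * 8 ^ L / 8 ^ a.1 := by
    calc (1:ℝ) / 4 / 8 ^ h0 ≤ |x - x'| := h3
      _ ≤ _ := h4
      _ ≤ 1 / 2 * 8 ^ L / 8 ^ a.1 + (L : ℝ) * 8 ^ L / 8 ^ a.1 + 1 / 2 * 8 ^ L / 8 ^ a.1 := by
          linarith
      _ = _ := by ring
  rw [div_div, div_le_div_iff₀ (by positivity) (by positivity)] at h7
  have h8 : (8:ℝ) ^ a.1 ≤ 4 * (L + 1) * 8 ^ (L + h0) := by
    rw [pow_add]; linarith
  have h9 : 8 ^ a.1 ≤ 4 * (L + 1) * 8 ^ (L + h0) := by exact_mod_cast h8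
  have h10 := s.two_mul_le
  have h11 : 4 * (L + 1) < 2 ^ a.1 := lt_of_le_of_lt (by omega) (Nat.lt_two_pow_self (n := a.1))
  have h12 : 8 ^ (L + h0) ≤ 2 ^ (2 * a.1) := by
    rw [show (8:ℕ) = 2 ^ 3 by norm_num, ← pow_mul]
    exact Nat.pow_le_pow_right (by norm_num) (by omega)
  have h13 : 8 ^ a.1 = 2 ^ a.1 * 2 ^ (2 * a.1) := by
    rw [show (8:ℕ) = 2 ^ 3 by norm_num, ← pow_mul, ← pow_add]; congr 1; omega
  rw [h13] at h9
  have h14 : 4 * (L + 1) * 8 ^ (L + h0) < 2 ^ a.1 * 2 ^ (2 * a.1) := by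
    calc _ ≤ 4 * (L + 1) * 2 ^ (2 * a.1) := Nat.mul_le_mul_left _ h12
      _ < _ := Nat.mul_lt_mul_of_pos_right h11 (by positivity)
  omega

end Pool.Agent.Lib.MP_a838d0_pr
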