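import Mathlib
import Pool.Agent.Lib.MP_a838d0_pr.Geo

set_option autoImplicit false

/-! Deterministic consequences of the absence of long closed star paths. -/

namespace Pool.Agent.Lib.MP_a838d0_pr

/-- a good configuration on the pairs -/
structure Conf (Op Cl : ℕ × ℕ → Prop) : Prop where
  op_valid : ∀ a, Op a → a.2 < 8 ^ a.1
  excl : ∀ a, a.2 < 8 ^ a.1 → ¬ Op a → Cl a
  disj : ∀ a, Op a → ¬ Cl a
  root : Op (0, 0)
  short : Short Cl

/-- the open cluster of the origin in `F` -/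
def MM (Op : ℕ × ℕ → Prop) (a : ℕ × ℕ) : Prop :=
  Relation.ReflTransGen (fun x y => FA x y ∧ Op x ∧ Op y) (0, 0) a

/-- the component of `y` in the complement of `MM` -/
def WW (Op : ℕ × ℕ → Prop) (y a : ℕ × ℕ) : Prop :=
  Relation.ReflTransGen (fun x z => FA x z ∧ ¬ MM Op x ∧ ¬ MM Op z) y a

/-- the boundary of the component -/
def AA (Op : ℕ × ℕ → Prop) (y a : ℕ × ℕ) : Prop :=
  WW Op y a ∧ ∃ m, FA a m ∧ MM Op m

theorem FE.valid {a b : ℕ × ℕ} (e : FE a b) : a.2 < 8 ^ a.1 ∧ b.2 < 8 ^ b.1 := by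
  cases e with
  | up n k k' hk' e =>
    refine ⟨?_, hk'⟩
    dsimp only
    rw [pow_succ] at hk'; omega
  | hor n k hk' hc => exact ⟨by dsimp only; omega, hk'⟩

theorem FA.valid {a b : ℕ × ℕ} (e : FA a b) : a.2 < 8 ^ a.1 ∧ b.2 < 8 ^ b.1 := by
  rcases e with e | e
  · exact e.valid
  · exact e.valid.symm

variable {Op Cl : ℕ × ℕ → Prop} {y : ℕ × ℕ}

theorem MM_root : MM Op (0, 0) := Relation.ReflTransGen.refl

theorem MM_op (C : Conf Op Cl) {a : ℕ × ℕ} (ha : MM Op a) : Op a := by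
  cases ha with
  | refl => exact C.root
  | tail _ h2 => exact h2.2.2

theorem MM_step (C : Conf Op Cl) {a b : ℕ × ℕ} (ha : MM Op a) (e : FA a b) (hb : Op b) :
    MM Op b := Relation.ReflTransGen.tail ha ⟨e, MM_op C ha, hb⟩

theorem MM_path {a : ℕ × ℕ} (ha : MM Op a) :
    Relation.ReflTransGen (fun x z => FA x z ∧ MM Op x ∧ MM Op z) (0, 0) a := by
  induction ha with
  | refl => exact Relation.ReflTransGen.refl
  | tail h1 h2 ih =>
    exact Relation.ReflTransGen.tail ih ⟨h2.1, h1, Relation.ReflTransGen.tail h1 h2⟩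

theorem conn_of_path {Z : ℕ × ℕ → Prop} {o : ℕ × ℕ}
    (hZ : ∀ a, Z a → Relation.ReflTransGen (fun x z => FA x z ∧ Z x ∧ Z z) o a)
    (a b : ℕ × ℕ) (ha : Z a) (hb : Z b) :
    Relation.ReflTransGen (fun x z => FA x z ∧ Z x ∧ Z z) a b := by
  have hs : Std.Symm (fun x z => FA x z ∧ Z x ∧ Z z) := ⟨fun x z e => ⟨e.1.symm, e.2.2, e.2.1⟩⟩
  refine Relation.ReflTransGen.trans ?_ (hZ b hb)
  have hs' : Std.Symm (Relation.ReflTransGen (fun x z => FA x z ∧ Z x ∧ Z z)) := inferInstance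
  exact hs'.symm _ _ (hZ a ha)

theorem WW_not (hy : ¬ MM Op y) {a : ℕ × ℕ} (ha : WW Op y a) : ¬ MM Op a := by
  cases ha with
  | refl => exact hy
  | tail _ h2 => exact h2.2.2

theorem WW_step (hy : ¬ MM Op y) {a b : ℕ × ℕ} (ha : WW Op y a) (e : FA a b)
    (hb : ¬ MM Op b) : WW Op y b :=
  Relation.ReflTransGen.tail ha ⟨e, WW_not hy ha, hb⟩

theorem WW_path {a : ℕ × ℕ} (ha : WW Op y a) :
    Relation.ReflTransGen (fun x z => FA x z ∧ WW Op y x ∧ WW Op y z) y a := by
  induction ha with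
  | refl => exact Relation.ReflTransGen.refl
  | tail h1 h2 ih =>
    exact Relation.ReflTransGen.tail ih ⟨h2.1, h1, Relation.ReflTransGen.tail h1 h2⟩

theorem WW_valid (hy : y.2 < 8 ^ y.1) {a : ℕ × ℕ} (ha : WW Op y a) : a.2 < 8 ^ a.1 := by
  cases ha with
  | refl => exact hy
  | tail _ h2 => exact h2.1.valid.2

theorem AA_closed (C : Conf Op Cl) (hy : ¬ MM Op y) {a : ℕ × ℕ} (ha : AA Op y a) : Cl a := by
  obtain ⟨h1, m, h2, h3⟩ := ha
  refine C.excl a h2.valid.1 ?_
  intro h4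
  exact WW_not hy h1 (MM_step C h3 h2.symm h4)

theorem AA_reach (C : Conf Op Cl) (hy : ¬ MM Op y) {a b : ℕ × ℕ} (ha : AA Op y a)
    (hb : AA Op y b) : (SG Cl).Reachable a b := by
  have S : Sep (MM Op) (WW Op y) (fun c => AA Op y c ∧ (SG Cl).Reachable a c) := by
    refine ⟨fun c hc => WW_not hy hc, fun c hc => hc.1.1, fun c d hc e hd => WW_step hy hc e hd, ?_⟩
    intro c d m hc hst hd e hm
    have hdA : AA Op y d := ⟨hd, m, e, hm⟩
    refine ⟨hdA, hc.2.trans (SimpleGraph.Adj.reachable ?_)⟩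
    exact ⟨hst, AA_closed C hy hc.1, AA_closed C hy hdA⟩
  obtain ⟨ha1, m, ha2, ha3⟩ := ha
  obtain ⟨hb1, m', hb2, hb3⟩ := hb
  have := star_conn S (fun c d hc hd => conn_of_path (fun _ h => MM_path h) c d hc hd)
    (fun c d hc hd => conn_of_path (fun _ h => WW_path h) c d hc hd)
    (a1 := a) (m1 := m) (a2 := b) (m2 := m')
    ⟨⟨ha1, m, ha2, ha3⟩, SimpleGraph.Reachable.refl _⟩ ha3 ha2 hb1 hb3 hb2
  exact this.2

theorem W_iff (hy : ¬ MM Op y) {a b : ℕ × ℕ} (e : FA a b) (ha : ¬ AA Op y a)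
    (hb : ¬ AA Op y b) : WW Op y a ↔ WW Op y b := by
  constructor
  · intro h1
    exact WW_step hy h1 e (fun h2 => ha ⟨h1, b, e, h2⟩)
  · intro h1
    exact WW_step hy h1 e.symm (fun h2 => hb ⟨h1, a, e.symm, h2⟩)

theorem chain_iff (hy : ¬ MM Op y) (n0 k : ℕ) : ∀ d, k < 8 ^ (n0 + d) →
    (∀ n, n0 ≤ n → n ≤ n0 + d → ¬ AA Op y (n, k / 8 ^ (n0 + d - n))) →
    (WW Op y (n0 + d, k) ↔ WW Op y (n0, k / 8 ^ d)) := by
  intro d
  induction d generalizing n0 with
  | zero => intro _ _; simp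
  | succ d ih =>
    intro hk hA
    have h1 : n0 + (d + 1) = (n0 + 1) + d := by omega
    have h2 := ih (n0 + 1) (by rwa [← h1]) (by
      intro n hn1 hn2
      have := hA n (by omega) (by omega)
      rwa [h1] at this)
    rw [h1, h2]
    have h3 : k / 8 ^ (d + 1) = k / 8 ^ d / 8 := by
      rw [Nat.div_div_eq_div_mul, pow_succ]
    have h4 : k / 8 ^ d < 8 ^ (n0 + 1) := by
      apply Nat.div_lt_of_lt_mul
      rw [← pow_add]
      have : d + (n0 + 1) = n0 + (d + 1) := by omega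
      rwa [this]
    have e : FA (n0, k / 8 ^ (d + 1)) (n0 + 1, k / 8 ^ d) :=
      Or.inl (FE.up _ _ _ h4 h3.symm)
    refine (W_iff hy e ?_ ?_).symm
    · have := hA n0 le_rfl (by omega)
      have h5 : n0 + (d + 1) - n0 = d + 1 := by omega
      rwa [h5] at this
    · have := hA (n0 + 1) (by omega) (by omega)
      have h5 : n0 + (d + 1) - (n0 + 1) = d := by omega
      rwa [h5] at this

theorem near_div1 {N n l : ℕ} (hn : n ≤ N) :
    |xx (n, l / 8 ^ (N - n)) - (l : ℝ) / 8 ^ N| ≤ 1 / 2 / 8 ^ n := by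
  obtain ⟨d, rfl⟩ : ∃ d, N = n + d := ⟨N - n, by omega⟩
  have h1 : n + d - n = d := by omega
  rw [h1]
  set k := l / 8 ^ d with hk
  have hd : 0 < 8 ^ d := by positivity
  have h2 : k * 8 ^ d ≤ l := Nat.div_mul_le_self _ _
  have h3 : l < (k + 1) * 8 ^ d := Nat.lt_mul_of_div_lt (Nat.lt_succ_self _) hd
  have h2' : (k : ℝ) * 8 ^ d ≤ l := by exact_mod_cast h2
  have h3' : (l : ℝ) < (k + 1) * 8 ^ d := by exact_mod_cast h3
  have hp : (0:ℝ) < 8 ^ n := by positivity
  have hpd : (0:ℝ) < 8 ^ d := by positivity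
  have h4 : xx (n, k) - (l : ℝ) / 8 ^ (n + d) = ((k : ℝ) + 1 / 2 - l / 8 ^ d) / 8 ^ n := by
    simp only [xx]; rw [pow_add]; field_simp
  rw [h4, abs_div, abs_of_pos hp]
  apply div_le_div_of_nonneg_right _ hp.le
  have h5 : (k : ℝ) ≤ l / 8 ^ d := by rw [le_div_iff₀ hpd]; exact h2'
  have h6 : (l : ℝ) / 8 ^ d < k + 1 := by rw [div_lt_iff₀ hpd]; exact h3'
  rw [abs_le]; constructor <;> linarith

theorem near_div2 {N n l : ℕ} (hn : n ≤ N) (hl : 1 ≤ l) :
    |xx (n, (l - 1) / 8 ^ (N - n)) - (l : ℝ) / 8 ^ N| ≤ 1 / 2 / 8 ^ n := by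
  obtain ⟨d, rfl⟩ : ∃ d, N = n + d := ⟨N - n, by omega⟩
  have h1 : n + d - n = d := by omega
  rw [h1]
  set k := (l - 1) / 8 ^ d with hk
  have hd : 0 < 8 ^ d := by positivity
  have h2 : k * 8 ^ d ≤ l - 1 := Nat.div_mul_le_self _ _
  have h3 : l - 1 < (k + 1) * 8 ^ d := Nat.lt_mul_of_div_lt (Nat.lt_succ_self _) hd
  have h2' : (k : ℝ) * 8 ^ d ≤ l := by exact_mod_cast h2.trans (Nat.sub_le _ _)
  have h3' : (l : ℝ) ≤ (k + 1) * 8 ^ d := by
    have : l ≤ (k + 1) * 8 ^ d := by omega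
    exact_mod_cast this
  have hp : (0:ℝ) < 8 ^ n := by positivity
  have hpd : (0:ℝ) < 8 ^ d := by positivity
  have h4 : xx (n, k) - (l : ℝ) / 8 ^ (n + d) = ((k : ℝ) + 1 / 2 - l / 8 ^ d) / 8 ^ n := by
    simp only [xx]; rw [pow_add]; field_simp
  rw [h4, abs_div, abs_of_pos hp]
  apply div_le_div_of_nonneg_right _ hp.le
  have h5 : (k : ℝ) ≤ l / 8 ^ d := by rw [le_div_iff₀ hpd]; exact h2'
  have h6 : (l : ℝ) / 8 ^ d ≤ k + 1 := by rw [div_le_iff₀ hpd]; exact h3'
  rw [abs_le]; constructor <;> linarith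

/-- conclusion of the boundary analysis at abscissa `x` -/
def NearSp (Op : ℕ × ℕ → Prop) (y : ℕ × ℕ) (x : ℝ) : Prop :=
  ∃ h0 n0 : ℕ, ∃ a : ℕ × ℕ, Sp x h0 n0 ∧ AA Op y a ∧ n0 ≤ a.1 ∧ |xx a - x| ≤ 1 / 2 / 8 ^ a.1

theorem near_left (hy : ¬ MM Op y) {N : ℕ} (hW : WW Op y (N, 0)) : NearSp Op y 0 := by
  by_contra hcon
  have h1 := chain_iff hy 0 0 N (by positivity) (by
    intro n _ hn hA
    apply hcon
    rw [Nat.zero_div] at hA
    refine ⟨0, 0, (n, 0), Sp.left, hA, by simp, ?_⟩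
    have := near_div1 (N := n) (n := n) (l := 0) le_rfl
    simpa using this)
  rw [Nat.zero_add, Nat.zero_div] at h1
  exact WW_not hy (h1.mp hW) MM_root

theorem near_right (hy : ¬ MM Op y) {N : ℕ} (hW : WW Op y (N, 8 ^ N - 1)) :
    NearSp Op y 1 := by
  by_contra hcon
  have hp : 0 < 8 ^ N := by positivity
  have h1 := chain_iff hy 0 (8 ^ N - 1) N (by rw [Nat.zero_add]; omega) (by
    intro n _ hn hA
    apply hcon
    rw [Nat.zero_add] at hA hn
    refine ⟨0, 0, _, Sp.right, hA, by simp, ?_⟩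
    have := near_div2 (N := N) (n := n) (l := 8 ^ N) hn hp
    rw [Nat.cast_pow, Nat.cast_ofNat, div_self (by positivity)] at this
    exact this)
  rw [Nat.zero_add] at h1
  have h2 := h1.mp hW
  rw [Nat.div_eq_of_lt (by omega)] at h2
  exact WW_not hy h2 MM_root

theorem near_mid (hy : ¬ MM Op y) {N l : ℕ} (hl : 1 ≤ l) (hlN : l < 8 ^ N)
    (hc : cut N (l - 1)) (hW : ¬ (WW Op y (N, l - 1) ↔ WW Op y (N, l))) :
    NearSp Op y ((l : ℝ) / 8 ^ N) := by
  obtain ⟨j, i, h1, h2⟩ := hc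
  have h3 : l - 1 + 1 = l := by omega
  rw [h3] at h2
  have hx : (l : ℝ) / 8 ^ N = xs j i := by rw [xs_int h1, ← h2]
  by_contra hcon
  apply hW
  obtain ⟨d, hd⟩ : ∃ d, N = nn j + d := ⟨N - nn j, by omega⟩
  have hd1 : 1 ≤ d := by omega
  have c1 := chain_iff hy (nn j) l d (by rwa [← hd]) (by
    intro n hn1 hn2 hA
    rw [← hd] at hA hn2
    apply hcon
    exact ⟨h j, nn j, _, hx ▸ Sp.slit j i, hA, hn1, near_div1 hn2⟩)
  have c2 := chain_iff hy (nn j) (l - 1) d (by rw [← hd]; omega) (by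
    intro n hn1 hn2 hA
    rw [← hd] at hA hn2
    apply hcon
    exact ⟨h j, nn j, _, hx ▸ Sp.slit j i, hA, hn1, near_div2 hn2 hl⟩)
  rw [← hd] at c1 c2
  have h4 : N - nn j - 1 = d - 1 := by omega
  rw [h4] at h2
  have h5 : (8:ℕ) ^ d = 8 * 8 ^ (d - 1) := by
    rw [← pow_succ']; congr 1; omega
  have hp : 0 < 8 ^ (d - 1) := by positivity
  have h6 : l / 8 ^ d = foot j i := by
    apply Nat.div_eq_of_lt_le
    · rw [h5, h2]; nlinarith
    · rw [h5, h2]; nlinarith
  have h7 : (l - 1) / 8 ^ d = foot j i := by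
    apply Nat.div_eq_of_lt_le
    · rw [h5, h2]
      apply Nat.le_sub_of_add_le
      nlinarith
    · rw [h5]
      apply lt_of_le_of_lt (Nat.sub_le _ _)
      rw [h2]; nlinarith
  rw [c1, c2, h6, h7]

theorem finite_valid (N : ℕ) : {a : ℕ × ℕ | a.2 < 8 ^ a.1 ∧ a.1 < N}.Finite := by
  refine ((Finset.range N).finite_toSet.biUnion
    (t := fun n => (fun k => (n, k)) '' (Set.Iio (8 ^ n))) ?_).subset ?_
  · intro n _
    exact (Set.finite_Iio _).image _
  · rintro ⟨n, k⟩ ⟨h1, h2⟩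
    simp only [Set.mem_iUnion]
    refine ⟨n, by simpa using h2, k, h1, rfl⟩

/-- The components of the complement of the cluster of the origin are finite. -/
theorem WW_finite (C : Conf Op Cl) (hv : y.2 < 8 ^ y.1) (hy : ¬ MM Op y) :
    {a | WW Op y a}.Finite := by
  by_contra hinf
  -- a bound for the rows of the boundary
  obtain ⟨N, hN⟩ : ∃ N, ∀ a, AA Op y a → a.1 < N := by
    by_cases hA : ∃ a0, AA Op y a0
    · obtain ⟨a0, ha0⟩ := hA
      refine ⟨2 * a0.1 + 1, fun a ha => ?_⟩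
      obtain ⟨p, hp⟩ := C.short a0 a (AA_closed C hy ha0) (AA_reach C hy ha0 ha)
      have := (walk_row p).2
      omega
    · exact ⟨0, fun a ha => (hA ⟨a, ha⟩).elim⟩
  obtain ⟨w, hw, hwN⟩ : ∃ w, WW Op y w ∧ N ≤ w.1 := by
    by_contra hcon
    push Not at hcon
    apply hinf
    refine (finite_valid N).subset ?_
    intro a ha
    exact ⟨WW_valid hv ha, hcon a ha⟩
  -- an element of row `N`
  obtain ⟨k, hk⟩ : ∃ k, WW Op y (N, k) := by
    obtain ⟨d, hd⟩ : ∃ d, w.1 = N + d := ⟨w.1 - N, by omega⟩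
    refine ⟨w.2 / 8 ^ d, ?_⟩
    refine (chain_iff hy N w.2 d ?_ ?_).mp ?_
    · rw [← hd]; exact WW_valid hv hw
    · intro n hn1 _ hA
      have := hN _ hA
      simp only at this
      omega
    · rw [← hd]; exact hw
  have hrow : ∀ i, i + 1 < 8 ^ N → ¬ cut N i → (WW Op y (N, i) ↔ WW Op y (N, i + 1)) := by
    intro i hi hc
    refine W_iff hy (Or.inl (FE.hor _ _ hi hc)) ?_ ?_
    · intro hA; have := hN _ hA; simp only at this; omega
    · intro hA; have := hN _ hA; simp only at this; omega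
  -- left end
  obtain ⟨xl, hxl, hxl'⟩ : ∃ x, NearSp Op y x ∧ x ≤ (k : ℝ) / 8 ^ N := by
    obtain ⟨l, hl⟩ : ∃ l, (∀ i, l ≤ i → i ≤ k → WW Op y (N, i)) ∧ l ≤ k ∧
        (l = 0 ∨ ¬ WW Op y (N, l - 1)) := by
      classical
      have hex : ∃ l, ∀ i, l ≤ i → i ≤ k → WW Op y (N, i) :=
        ⟨k, fun i h1 h2 => by obtain rfl : i = k := le_antisymm h2 h1; exact hk⟩
      refine ⟨Nat.find hex, Nat.find_spec hex, Nat.find_min' hex
        (fun i h1 h2 => by obtain rfl : i = k := le_antisymm h2 h1; exact hk), ?_⟩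
      by_contra hcon
      push Not at hcon
      have h1 : Nat.find hex - 1 < Nat.find hex := by omega
      apply Nat.find_min hex h1
      intro i h2 h3
      rcases (show i = Nat.find hex - 1 ∨ Nat.find hex ≤ i by omega) with h4 | h4
      · rw [h4]; exact hcon.2
      · exact Nat.find_spec hex i h4 h3
    obtain ⟨h1, h2, h3⟩ := hl
    have hWl := h1 l le_rfl h2
    have hvl : l < 8 ^ N := WW_valid hv hWl
    rcases Nat.eq_zero_or_pos l with h4 | h4
    · subst h4
      exact ⟨0, near_left hy hWl, by positivity⟩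
    · have h3' := h3.resolve_left (by omega)
      refine ⟨(l : ℝ) / 8 ^ N, near_mid hy h4 hvl ?_ (fun h => h3' (h.mpr hWl)), ?_⟩
      · by_contra hc
        have := hrow (l - 1) (by omega) hc
        rw [show l - 1 + 1 = l by omega] at this
        exact h3' (this.mpr hWl)
      · apply div_le_div_of_nonneg_right _ (by positivity)
        exact_mod_cast h2
  -- right end
  obtain ⟨xr, hxr, hxr'⟩ : ∃ x, NearSp Op y x ∧ (k : ℝ) / 8 ^ N < x := by
    obtain ⟨r, h1, h2, h3⟩ : ∃ r, k ≤ r ∧ WW Op y (N, r) ∧ ¬ WW Op y (N, r + 1) := by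
      classical
      have hex : ∃ d, ¬ WW Op y (N, k + d + 1) := by
        refine ⟨8 ^ N, fun h => ?_⟩
        have : k + 8 ^ N + 1 < 8 ^ N := WW_valid hv h
        omega
      rcases Nat.eq_zero_or_pos (Nat.find hex) with h4 | h4
      · refine ⟨k, le_rfl, hk, ?_⟩
        have := Nat.find_spec hex
        rw [h4] at this
        exact this
      · have h5 : Nat.find hex - 1 < Nat.find hex := by omega
        have h6 := Nat.find_min hex h5
        rw [not_not] at h6
        refine ⟨k + (Nat.find hex - 1) + 1, by omega, h6, ?_⟩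
        have h7 := Nat.find_spec hex
        rwa [show k + (Nat.find hex - 1) + 1 + 1 = k + Nat.find hex + 1 by omega]
    have hvr : r < 8 ^ N := WW_valid hv h2
    rcases (show r + 1 = 8 ^ N ∨ r + 1 < 8 ^ N by omega) with h4 | h4
    · refine ⟨1, near_right hy (N := N) ?_, ?_⟩
      · rwa [← h4, Nat.add_sub_cancel]
      · rw [div_lt_one (by positivity)]
        have : k < 8 ^ N := by omega
        exact_mod_cast this
    · refine ⟨((r + 1 : ℕ) : ℝ) / 8 ^ N, near_mid hy (by omega) h4 ?_ ?_, ?_⟩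
      · by_contra hc
        rw [Nat.add_sub_cancel] at hc
        exact h3 ((hrow r h4 hc).mp h2)
      · rw [Nat.add_sub_cancel]
        exact fun h => h3 (h.mp h2)
      · rw [div_lt_div_iff_of_pos_right (by positivity)]
        have : k < r + 1 := by omega
        exact_mod_cast this
  obtain ⟨h0, n0, a, s, hA, hn, hd⟩ := hxl
  obtain ⟨h0', n0', a', s', hA', hn', hd'⟩ := hxr
  have hne : xl ≠ xr := (lt_of_le_of_lt hxl' hxr').ne
  rcases le_total h0' h0 with hh | hh
  · exact no_two C.short (AA_closed C hy hA) (AA_reach C hy hA hA') s s' hh hne hn hd hd'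
  · exact no_two C.short (AA_closed C hy hA') (AA_reach C hy hA' hA) s' s hh hne.symm hn' hd' hd

/-- A vertex with a long open ascending path belongs to the cluster of the origin. -/
theorem foot_mem (C : Conf Op Cl) {n k : ℕ} (hk : k < 8 ^ n)
    (hop : ∀ e, e ≤ n / 8 → Op (n + e, k * 8 ^ e)) : MM Op (n, k) := by
  by_contra hy
  have hfin := WW_finite C (y := (n, k)) hk hy
  have hval : ∀ e, k * 8 ^ e < 8 ^ (n + e) := by
    intro e; rw [pow_add]; exact Nat.mul_lt_mul_of_pos_right hk (by positivity)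
  have hadj : ∀ e, FA (n + e, k * 8 ^ e) (n + (e + 1), k * 8 ^ (e + 1)) := by
    intro e
    refine Or.inl (FE.up (n + e) _ _ (hval (e + 1)) ?_)
    rw [pow_succ, ← mul_assoc, Nat.mul_div_cancel _ (by norm_num)]
  have hin : ∀ e, e ≤ n / 8 → WW Op (n, k) (n + e, k * 8 ^ e) := by
    intro e
    induction e with
    | zero =>
      intro _
      rw [Nat.add_zero, pow_zero, mul_one]
      exact Relation.ReflTransGen.refl
    | succ e ih =>
      intro he
      have h1 := ih (by omega)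
      refine WW_step hy h1 (hadj e) (fun h2 => ?_)
      exact WW_not hy h1 (MM_step C h2 (hadj e).symm (hop e (by omega)))
  -- the ray leaves the component
  obtain ⟨e, he, hA⟩ : ∃ e, n / 8 < e ∧ AA Op (n, k) (n + e, k * 8 ^ e) := by
    classical
    have hex : ∃ e, ¬ WW Op (n, k) (n + e, k * 8 ^ e) := by
      by_contra hcon
      push Not at hcon
      apply Set.infinite_of_injective_forall_mem (f := fun e : ℕ => (n + e, k * 8 ^ e)) _ hcon hfin
      intro a b hab
      have := congrArg Prod.fst hab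
      simpa using this
    have h1 := Nat.find_spec hex
    have h2 : n / 8 < Nat.find hex := by
      by_contra h3
      exact h1 (hin _ (by omega))
    have h3 : Nat.find hex - 1 < Nat.find hex := by omega
    have h4 := Nat.find_min hex h3
    rw [not_not] at h4
    have h5 : Nat.find hex - 1 + 1 = Nat.find hex := by omega
    have h6 := hadj (Nat.find hex - 1)
    rw [h5] at h6
    have h7 : MM Op (n + Nat.find hex, k * 8 ^ Nat.find hex) := by
      by_contra h8
      exact h1 (WW_step hy h4 h6 h8)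
    refine ⟨Nat.find hex - 1, ?_, h4, _, h6, h7⟩
    by_contra h8
    exact WW_not hy h4 (MM_step C h7 h6.symm (hop _ (by omega)))
  -- the path towards the origin
  obtain ⟨m, c, hm, hA'⟩ : ∃ m c, m ≤ n ∧ AA Op (n, k) (m, c) := by
    by_contra hcon
    push Not at hcon
    have h1 := chain_iff hy 0 k n (by rwa [Nat.zero_add]) (by
      intro m _ hm
      exact hcon m _ (by omega))
    rw [Nat.zero_add, Nat.div_eq_of_lt hk] at h1
    exact WW_not hy (h1.mp Relation.ReflTransGen.refl) MM_root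
  obtain ⟨p, hp⟩ := C.short _ _ (AA_closed C hy hA') (AA_reach C hy hA' hA)
  have := (walk_row p).2
  simp only at this hp
  omega

end Pool.Agent.Lib.MP_a838d0_pr
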