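import Mathlib
import Pool.Agent.Lib.MP_a838d0_pr.FinW
import Pool.Agent.Lib.MP_a838d0_pr.Basic

set_option autoImplicit false

/-! Deterministic part: on the good event there is at most one infinite open cluster in `G`. -/

namespace Pool.Agent.Lib.MP_a838d0_pr

/-- open pairs -/
def Opn (ω : Vtx → Bool) (a : ℕ × ℕ) : Prop := ∃ hk : a.2 < 8 ^ a.1, ω (.F a.1 a.2 hk) = true

/-- closed pairs -/
def Cls (ω : Vtx → Bool) (a : ℕ × ℕ) : Prop := ∃ hk : a.2 < 8 ^ a.1, ω (.F a.1 a.2 hk) = false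

/-- the star neighbours -/
def nbrs (a : ℕ × ℕ) : List (ℕ × ℕ) :=
  [(a.1, a.2 + 1), (a.1, a.2 - 1), (a.1 - 1, a.2 / 8), (a.1 - 1, (a.2 + 1) / 8),
    (a.1 - 1, (a.2 - 1) / 8)] ++ (List.range 10).map (fun r => (a.1 + 1, 8 * a.2 + r - 1))

theorem nbrs_length (a : ℕ × ℕ) : (nbrs a).length = 15 := by simp [nbrs]

theorem St_nbrs {a b : ℕ × ℕ} (e : St a b) : b ∈ nbrs a := by
  obtain ⟨n, k⟩ := a
  obtain ⟨m, l⟩ := b
  rcases e with (⟨e1, e2⟩ | ⟨e1, e2, e3⟩) | (⟨e1, e2⟩ | ⟨e1, e2, e3⟩)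
  · simp only at e1 e2
    subst e1; subst e2
    simp [nbrs]
  · simp only at e1 e2 e3
    subst e1
    unfold nbrs
    apply List.mem_append_right
    rw [List.mem_map]
    refine ⟨l + 1 - 8 * k, ?_, ?_⟩
    · rw [List.mem_range]; omega
    · simp only [Prod.mk.injEq, true_and]; omega
  · simp only at e1 e2
    subst e1; subst e2
    simp [nbrs]
  · simp only at e1 e2 e3
    subst e1
    unfold nbrs
    apply List.mem_append_left
    have h1 : l = k / 8 ∨ l = (k + 1) / 8 ∨ l = (k - 1) / 8 := by omega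
    simp only [Nat.add_sub_cancel, List.mem_cons, Prod.mk.injEq, true_and, List.not_mem_nil,
      or_false]
    tauto

/-- star paths with `m` steps starting at `a` -/
def paths : ℕ → ℕ × ℕ → List (List (ℕ × ℕ))
  | 0, a => [[a]]
  | (m+1), a => (nbrs a).flatMap (fun c => (paths m c).map (fun l => a :: l))

theorem paths_length (m : ℕ) : ∀ a, (paths m a).length = 15 ^ m := by
  induction m with
  | zero => intro a; rfl
  | succ m ih =>
    intro a
    rw [paths, List.length_flatMap]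
    simp only [List.length_map, ih]
    rw [List.map_const', List.sum_replicate, nbrs_length, pow_succ]
    simp [mul_comm]

theorem paths_len {m : ℕ} : ∀ {a : ℕ × ℕ} {l : List (ℕ × ℕ)}, l ∈ paths m a →
    l.length = m + 1 := by
  induction m with
  | zero => intro a l hl; simp only [paths, List.mem_singleton] at hl; subst hl; rfl
  | succ m ih =>
    intro a l hl
    simp only [paths, List.mem_flatMap, List.mem_map] at hl
    obtain ⟨c, _, l', hl', rfl⟩ := hl
    simp [ih hl']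

theorem support_take {Cl : ℕ × ℕ → Prop} {a b : ℕ × ℕ} (p : (SG Cl).Walk a b) :
    ∀ m, m ≤ p.length → p.support.take (m + 1) ∈ paths m a := by
  induction p with
  | nil =>
    intro m hm
    obtain rfl : m = 0 := by simpa using hm
    simp [paths]
  | @cons a c b e p ih =>
    intro m hm
    rw [SimpleGraph.Walk.length_cons] at hm
    rw [SimpleGraph.Walk.support_cons]
    cases m with
    | zero => simp [paths]
    | succ m =>
      rw [List.take_succ_cons, paths, List.mem_flatMap]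
      refine ⟨c, St_nbrs e.1, ?_⟩
      rw [List.mem_map]
      exact ⟨_, ih m (by omega), rfl⟩

theorem support_closed {Cl : ℕ × ℕ → Prop} {a b : ℕ × ℕ} (p : (SG Cl).Walk a b) :
    Cl a → ∀ x ∈ p.support, Cl x := by
  induction p with
  | nil => intro ha x hx; simp at hx; subst hx; exact ha
  | @cons a c b e p ih =>
    intro ha x hx
    rw [SimpleGraph.Walk.support_cons, List.mem_cons] at hx
    rcases hx with rfl | hx
    · exact ha
    · exact ih e.2.2 x hx

/-- no long closed star path -/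
def EStar (ω : Vtx → Bool) : Prop :=
  ∀ n k, k < 8 ^ n → ∀ l ∈ paths (n / 8) (n, k), l.Nodup → ¬ ∀ x ∈ l, Cls ω x

/-- every `T`-vertex has a good child -/
def EH (ω : Vtx → Bool) : Prop :=
  ∀ j i, i < 8 ^ (h j) → ∃ i', ∃ hi' : i' < 8 ^ (h (j + 1)), i' / 8 ^ (h (j + 1) - h j) = i ∧
    ω (.T (j + 1) i' hi') = true ∧
    ∀ e, e ≤ nn (j + 1) / 8 → Opn ω (nn (j + 1) + e, foot (j + 1) i' * 8 ^ e)

theorem short_of_EStar {ω : Vtx → Bool} (hE : EStar ω) : Short (Cls ω) := by
  intro a b ha hab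
  obtain ⟨p, hp⟩ := hab.exists_isPath
  refine ⟨p, ?_⟩
  by_contra hcon
  have h1 : a.1 / 8 ≤ p.length := by omega
  have h2 := support_take p (a.1 / 8) h1
  have hk : a.2 < 8 ^ a.1 := ha.1
  refine hE a.1 a.2 hk _ h2 (hp.support_nodup.sublist (List.take_sublist _ _)) ?_
  intro x hx
  exact support_closed p ha x (List.mem_of_mem_take hx)

theorem conf_of_EStar {ω : Vtx → Bool} (hE : EStar ω) : Conf (Opn ω) (Cls ω) where
  op_valid := fun a ha => ha.1
  excl := by
    intro a ha hna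
    refine ⟨ha, ?_⟩
    by_contra hcon
    exact hna ⟨ha, by simpa using hcon⟩
  disj := by
    rintro a ⟨h1, h2⟩ ⟨h3, h4⟩
    rw [h2] at h4
    exact absurd h4 (by simp)
  root := by
    refine ⟨by simp, ?_⟩
    by_contra hcon
    refine hE 0 0 (by simp) [(0, 0)] (by simp [paths]) (by simp) ?_
    intro x hx
    simp only [List.mem_singleton] at hx
    subst hx
    exact ⟨by simp, by simpa using hcon⟩
  short := short_of_EStar hE

theorem FE.adj0 {a b : ℕ × ℕ} (e : FE a b) (ha : a.2 < 8 ^ a.1) (hb : b.2 < 8 ^ b.1) :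
    Adj0 (.F a.1 a.2 ha) (.F b.1 b.2 hb) := by
  cases e with
  | up n k k' hk' e => exact Adj0.fp n k k' ha hb e
  | hor n k hk' hc => exact Adj0.fh n k ha hb hc

theorem FA.adj {a b : ℕ × ℕ} (e : FA a b) (ha : a.2 < 8 ^ a.1) (hb : b.2 < 8 ^ b.1) :
    G.Adj (.F a.1 a.2 ha) (.F b.1 b.2 hb) := by
  rcases e with e | e
  · exact Or.inl (e.adj0 ha hb)
  · exact Or.inr (e.adj0 hb ha)

theorem adj_FA {n k m l : ℕ} {hk : k < 8 ^ n} {hl : l < 8 ^ m}
    (e : G.Adj (.F n k hk) (.F m l hl)) : FA (n, k) (m, l) := by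
  rcases e with e | e
  · cases e with
    | fp _ _ _ _ hk' e => exact Or.inl (FE.up _ _ _ hk' e)
    | fh _ _ _ hk' hc => exact Or.inl (FE.hor _ _ hk' hc)
  · cases e with
    | fp _ _ _ _ hk' e => exact Or.inr (FE.up _ _ _ hk' e)
    | fh _ _ _ hk' hc => exact Or.inr (FE.hor _ _ hk' hc)

/-- the open subgraph -/
abbrev OG (ω : Vtx → Bool) : SimpleGraph {v : Vtx | ω v = true} := G.induce {v | ω v = true}

theorem MM_reach {ω : Vtx → Bool} (_C : Conf (Opn ω) (Cls ω)) {a : ℕ × ℕ} (ha : MM (Opn ω) a)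
    (h0 : ω root = true) :
    ∀ (hk : a.2 < 8 ^ a.1) (ho : ω (.F a.1 a.2 hk) = true),
      (OG ω).Reachable ⟨root, h0⟩ ⟨.F a.1 a.2 hk, ho⟩ := by
  induction ha with
  | refl => intro hk ho; exact SimpleGraph.Reachable.refl _
  | @tail b c h1 h2 ih =>
    intro hk ho
    obtain ⟨e, ⟨hb, hbo⟩, _⟩ := h2
    refine (ih hb hbo).trans (SimpleGraph.Adj.reachable ?_)
    exact e.adj hb hk

theorem T_reach {ω : Vtx → Bool} (C : Conf (Opn ω) (Cls ω)) (hH : EH ω) (h0 : ω root = true)
    (j i : ℕ) (hi : i < 8 ^ (h j)) (ho : ω (.T j i hi) = true) :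
    (OG ω).Reachable ⟨root, h0⟩ ⟨.T j i hi, ho⟩ := by
  obtain ⟨i', hi', e1, e2, e3⟩ := hH j i hi
  have hf := foot_lt (j + 1) i' hi'
  have hm := foot_mem C hf e3
  obtain ⟨_, hfo⟩ := MM_op C hm
  refine (MM_reach C hm h0 hf hfo).trans ?_
  have a1 : (OG ω).Adj ⟨.F (nn (j + 1)) (foot (j + 1) i') hf, hfo⟩ ⟨.T (j + 1) i' hi', e2⟩ :=
    Or.inr (Adj0.rg (j + 1) i' hi' hf)
  have a2 : (OG ω).Adj ⟨.T (j + 1) i' hi', e2⟩ ⟨.T j i hi, ho⟩ :=
    Or.inr (Adj0.tp j i i' hi hi' e1)
  exact a1.reachable.trans a2.reachable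

theorem root_reach {ω : Vtx → Bool} (hE : EStar ω) (hH : EH ω) (h0 : ω root = true)
    (c : (OG ω).ConnectedComponent) (hc : c.supp.Infinite) :
    c = (OG ω).connectedComponentMk ⟨root, h0⟩ := by
  have C := conf_of_EStar hE
  obtain ⟨v, rfl⟩ := c.exists_rep
  by_contra hne
  have hnr : ¬ (OG ω).Reachable ⟨root, h0⟩ v := by
    intro h1
    exact hne (SimpleGraph.ConnectedComponent.sound h1.symm)
  have key : ∀ w, (OG ω).Reachable v w → ¬ (OG ω).Reachable ⟨root, h0⟩ w :=
    fun w h1 h2 => hnr (h2.trans h1.symm)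
  -- every vertex of the component is an `F`-vertex outside of `MM`
  obtain ⟨⟨v, hvo⟩, rfl⟩ : ∃ v', v' = v := ⟨v, rfl⟩
  cases v with
  | T j i hi => exact hnr (T_reach C hH h0 j i hi hvo)
  | F n k hk =>
    have hnM : ∀ {m l : ℕ} (hl : l < 8 ^ m) (hlo : ω (.F m l hl) = true),
        (OG ω).Reachable ⟨.F n k hk, hvo⟩ ⟨.F m l hl, hlo⟩ → ¬ MM (Opn ω) (m, l) := by
      intro m l hl hlo hr hM
      exact key _ hr (MM_reach C hM h0 hl hlo)
    have hy : ¬ MM (Opn ω) (n, k) := hnM hk hvo (SimpleGraph.Reachable.refl _)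
    have hfin := WW_finite C (y := (n, k)) hk hy
    have hall : ∀ w : {v : Vtx | ω v = true}, (OG ω).Reachable ⟨.F n k hk, hvo⟩ w →
        ∃ m l, ∃ hl : l < 8 ^ m, w.1 = .F m l hl ∧ WW (Opn ω) (n, k) (m, l) := by
      intro w hw
      rw [SimpleGraph.reachable_iff_reflTransGen] at hw
      induction hw with
      | refl => exact ⟨n, k, hk, rfl, Relation.ReflTransGen.refl⟩
      | @tail b c h1 h2 ih =>
        obtain ⟨m, l, hl, hb, hW⟩ := ih
        have hrc : (OG ω).Reachable ⟨.F n k hk, hvo⟩ c :=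
          (SimpleGraph.reachable_iff_reflTransGen _ _).mpr (h1.tail h2)
        obtain ⟨b, hbo⟩ := b
        obtain ⟨c, hco⟩ := c
        simp only at hb
        subst hb
        cases c with
        | T j i hi => exact (key _ hrc (T_reach C hH h0 j i hi hco)).elim
        | F m' l' hl' =>
          refine ⟨m', l', hl', rfl, ?_⟩
          exact WW_step hy hW (adj_FA h2) (hnM hl' hco hrc)
    apply hc
    -- the support is finite
    let Z : Set Vtx := {w | ∃ m l, ∃ hl : l < 8 ^ m, w = .F m l hl ∧ WW (Opn ω) (n, k) (m, l)}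
    have hZ : Z.Finite := by
      have hfin' : (Set.range (fun a : {a : ℕ × ℕ | WW (Opn ω) (n, k) a} =>
          (Vtx.F a.1.1 a.1.2 (WW_valid hk a.2)))).Finite := by
        have : Finite {a : ℕ × ℕ | WW (Opn ω) (n, k) a} := hfin
        exact Set.finite_range _
      refine hfin'.subset ?_
      rintro w ⟨m, l, hl, rfl, hW⟩
      exact ⟨⟨(m, l), hW⟩, rfl⟩
    refine Set.Finite.subset (hZ.preimage (f := Subtype.val) Subtype.val_injective.injOn) ?_
    intro w hw
    have : (OG ω).Reachable ⟨.F n k hk, hvo⟩ w := by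
      rw [SimpleGraph.ConnectedComponent.mem_supp_iff] at hw
      exact (SimpleGraph.ConnectedComponent.exact hw).symm
    exact hall w this

theorem unique_infinite {ω : Vtx → Bool} (hE : EStar ω) (hH : EH ω) :
    ¬ {c : (G.induce {v | ω v = true}).ConnectedComponent | c.supp.Infinite}.Infinite := by
  have C := conf_of_EStar hE
  have h0 : ω root = true := by
    obtain ⟨_, h⟩ := C.root
    exact h
  rw [Set.not_infinite]
  apply Set.Subsingleton.finite
  intro c hc c' hc'
  rw [root_reach hE hH h0 c hc, root_reach hE hH h0 c' hc']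

end Pool.Agent.Lib.MP_a838d0_pr
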