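import Mathlib
import Pool.Agent.Lib.MP_a838d0_pr.Det

set_option autoImplicit false

/-! Bernoulli product measures and elementary union bounds. -/

namespace Pool.Agent.Lib.MP_a838d0_pr

open MeasureTheory

/-- Bernoulli measure -/
noncomputable def bern (p : ℝ) : Measure Bool :=
  ENNReal.ofReal p • Measure.dirac true + ENNReal.ofReal (1 - p) • Measure.dirac false

theorem bern_true (p : ℝ) : bern p {true} = ENNReal.ofReal p := by
  simp [bern]

theorem bern_false (p : ℝ) : bern p {false} = ENNReal.ofReal (1 - p) := by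
  simp [bern]

theorem bern_prob {p : ℝ} (hp : p ∈ Set.Icc (0:ℝ) 1) : IsProbabilityMeasure (bern p) := by
  constructor
  simp only [bern, Measure.coe_add, Measure.coe_smul, Pi.add_apply, Pi.smul_apply, measure_univ,
    smul_eq_mul, mul_one]
  rw [← ENNReal.ofReal_add hp.1 (by linarith [hp.2])]
  simp

/-- product measure -/
noncomputable def mu (p : ℝ) : Measure (Vtx → Bool) := Measure.infinitePi (fun _ => bern p)

theorem mu_prob {p : ℝ} (hp : p ∈ Set.Icc (0:ℝ) 1) : IsProbabilityMeasure (mu p) := by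
  have := bern_prob hp
  unfold mu; infer_instance

/-- all vertices of `S` are open -/
def AllOpen (S : Finset Vtx) : Set (Vtx → Bool) := {ω | ∀ v ∈ S, ω v = true}

/-- all vertices of `S` are closed -/
def AllClosed (S : Finset Vtx) : Set (Vtx → Bool) := {ω | ∀ v ∈ S, ω v = false}

theorem allOpen_eq (S : Finset Vtx) : AllOpen S = Set.pi (S : Set Vtx) (fun _ => {true}) := by
  ext ω; simp [AllOpen, Set.mem_pi]

theorem allClosed_eq (S : Finset Vtx) : AllClosed S = Set.pi (S : Set Vtx) (fun _ => {false}) := by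
  ext ω; simp [AllClosed, Set.mem_pi]

theorem measurable_allOpen (S : Finset Vtx) : MeasurableSet (AllOpen S) := by
  rw [allOpen_eq]
  exact MeasurableSet.pi S.countable_toSet (fun _ _ => MeasurableSet.singleton _)

theorem mu_allOpen {p : ℝ} (hp : p ∈ Set.Icc (0:ℝ) 1) (S : Finset Vtx) :
    mu p (AllOpen S) = ENNReal.ofReal p ^ S.card := by
  have := bern_prob hp
  rw [allOpen_eq, mu, Measure.infinitePi_pi _ (fun _ _ => MeasurableSet.singleton _)]
  simp [bern_true]

theorem mu_allClosed {p : ℝ} (hp : p ∈ Set.Icc (0:ℝ) 1) (S : Finset Vtx) :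
    mu p (AllClosed S) = ENNReal.ofReal (1 - p) ^ S.card := by
  have := bern_prob hp
  rw [allClosed_eq, mu, Measure.infinitePi_pi _ (fun _ _ => MeasurableSet.singleton _)]
  simp [bern_false]

theorem allOpen_union [DecidableEq Vtx] (S T : Finset Vtx) :
    AllOpen S ∩ AllOpen T = AllOpen (S ∪ T) := by
  ext ω
  simp only [AllOpen, Set.mem_inter_iff, Set.mem_ofPred_eq, Finset.mem_union]
  constructor
  · rintro ⟨h1, h2⟩ v (hv | hv)
    · exact h1 v hv
    · exact h2 v hv
  · intro h; exact ⟨fun v hv => h v (Or.inl hv), fun v hv => h v (Or.inr hv)⟩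

/-- Exact probability that a block is open and none of the disjoint blocks is open. -/
theorem block_eq {ι : Type} {p : ℝ} (hp : p ∈ Set.Icc (0:ℝ) 1) (S : ι → Finset Vtx) (s : ℕ)
    (hs : ∀ c, (S c).card = s) (hd : ∀ c c', c ≠ c' → Disjoint (S c) (S c')) (K : Finset ι) :
    ∀ (T : Finset Vtx), (∀ c ∈ K, Disjoint T (S c)) →
    (mu p).real (AllOpen T ∩ {ω | ∀ c ∈ K, ω ∉ AllOpen (S c)}) =
      p ^ T.card * (1 - p ^ s) ^ K.card := by
  classical
  have := mu_prob hp
  induction K using Finset.induction_on with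
  | empty =>
    intro T _
    simp only [Finset.notMem_empty, false_imp_iff, implies_true, Set.ofPred_true, Set.inter_univ,
      Finset.card_empty, pow_zero, mul_one]
    rw [measureReal_def, mu_allOpen hp, ENNReal.toReal_pow, ENNReal.toReal_ofReal hp.1]
  | insert c K hc ih =>
    intro T hT
    have h1 := ih T (fun c' hc' => hT c' (Finset.mem_insert_of_mem hc'))
    have h2 := ih (T ∪ S c) (by
      intro c' hc'
      rw [Finset.disjoint_union_left]
      refine ⟨hT c' (Finset.mem_insert_of_mem hc'), hd c c' ?_⟩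
      rintro rfl; exact hc hc')
    set A : Set (Vtx → Bool) := {ω | ∀ c ∈ K, ω ∉ AllOpen (S c)} with hA
    have h3 : (AllOpen T ∩ A) \ AllOpen (S c) =
        AllOpen T ∩ {ω | ∀ c' ∈ insert c K, ω ∉ AllOpen (S c')} := by
      ext ω
      simp only [hA, Set.mem_sdiff, Set.mem_inter_iff, Set.mem_ofPred_eq, Finset.mem_insert,
        forall_eq_or_imp]
      tauto
    have h4 : (AllOpen T ∩ A) ∩ AllOpen (S c) = AllOpen (T ∪ S c) ∩ A := by
      rw [← allOpen_union]
      ext ω
      simp only [Set.mem_inter_iff]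
      tauto
    have h5 := measureReal_inter_add_sdiff (μ := mu p) (s := AllOpen T ∩ A)
      (measurable_allOpen (S c))
    rw [h3, h4, h1, h2, Finset.card_union_of_disjoint (hT c (Finset.mem_insert_self _ _)), hs c]
      at h5
    rw [Finset.card_insert_of_notMem hc, pow_succ]
    have h6 : p ^ (T.card + s) = p ^ T.card * p ^ s := pow_add _ _ _
    rw [h6] at h5
    linarith

theorem pow_bound {x : ℝ} (h0 : 0 < x) (h1 : x ≤ 1) {b : ℕ} (hb : 0 < b) :
    (1 - x) ^ b ≤ 1 / (b * x) := by
  have h2 : 1 + (b : ℝ) * x ≤ (1 + x) ^ b := one_add_mul_le_pow (by linarith) b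
  have h3 : (1 - x) ^ b * (1 + x) ^ b ≤ 1 := by
    rw [← mul_pow]
    apply pow_le_one₀
    · nlinarith
    · nlinarith
  have h4 : 0 ≤ (1 - x) ^ b := pow_nonneg (by linarith) b
  have hb' : (0:ℝ) < b := by exact_mod_cast hb
  have h5 : (0:ℝ) < b * x := mul_pos hb' h0
  rw [le_div_iff₀ h5]
  calc (1 - x) ^ b * (b * x) ≤ (1 - x) ^ b * (1 + x) ^ b := by
        apply mul_le_mul_of_nonneg_left _ h4
        linarith
    _ ≤ 1 := h3

/-- Probability that none of `b` disjoint blocks of size `s` is open. -/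
theorem block_le {p : ℝ} (hp0 : 0 < p) (hp1 : p ≤ 1) (b : ℕ) (hb : 0 < b)
    (S : Fin b → Finset Vtx) (s : ℕ)
    (hs : ∀ c, (S c).card = s) (hd : ∀ c c', c ≠ c' → Disjoint (S c) (S c')) :
    mu p {ω | ∀ c, ω ∉ AllOpen (S c)} ≤ ENNReal.ofReal (1 / (b * p ^ s)) := by
  have hp : p ∈ Set.Icc (0:ℝ) 1 := ⟨hp0.le, hp1⟩
  have := mu_prob hp
  have h1 := block_eq hp S s hs hd Finset.univ ∅ (fun _ _ => Finset.disjoint_empty_left _)
  have h2 : AllOpen ∅ ∩ {ω | ∀ c ∈ (Finset.univ : Finset (Fin b)), ω ∉ AllOpen (S c)} =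
      {ω | ∀ c, ω ∉ AllOpen (S c)} := by
    ext ω; simp [AllOpen]
  rw [h2] at h1
  rw [← ofReal_measureReal, h1]
  apply ENNReal.ofReal_le_ofReal
  simp only [Finset.card_empty, pow_zero, one_mul, Finset.card_univ, Fintype.card_fin]
  exact pow_bound (pow_pos hp0 s) (pow_le_one₀ hp0.le hp1) hb

end Pool.Agent.Lib.MP_a838d0_pr
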