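import Mathlib
import Pool.Agent.Lib.MP_a838d0_pr.Prob

set_option autoImplicit false

/-! The three union bounds. -/

namespace Pool.Agent.Lib.MP_a838d0_pr

open MeasureTheory

theorem tsum_quarter : ∑' n : ℕ, ENNReal.ofReal ((1 / 2) ^ (n + 3)) ≤ ENNReal.ofReal (1 / 4) := by
  have h1 : Summable (fun n : ℕ => ((1:ℝ) / 2) ^ (n + 3)) := by
    have := (summable_geometric_of_lt_one (r := (1:ℝ) / 2) (by norm_num) (by norm_num)).mul_left
      ((1 / 2) ^ 3)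
    refine this.congr (fun n => ?_)
    rw [pow_add]; ring
  rw [← ENNReal.ofReal_tsum_of_nonneg (fun n => by positivity) h1]
  apply ENNReal.ofReal_le_ofReal
  have h2 : ∑' n : ℕ, ((1:ℝ) / 2) ^ (n + 3) = (1 / 2) ^ 3 * ∑' n : ℕ, ((1:ℝ) / 2) ^ n := by
    rw [← tsum_mul_left]
    congr 1; funext n; rw [pow_add]; ring
  rw [h2, tsum_geometric_of_lt_one (by norm_num) (by norm_num)]
  norm_num

/-- vertex attached to a pair -/
def toV (x : ℕ × ℕ) : Vtx := if hx : x.2 < 8 ^ x.1 then .F x.1 x.2 hx else root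

theorem toV_inj {x y : ℕ × ℕ} (hx : x.2 < 8 ^ x.1) (hy : y.2 < 8 ^ y.1) (e : toV x = toV y) :
    x = y := by
  simp only [toV, hx, hy, dif_pos, Vtx.F.injEq] at e
  exact Prod.ext e.1 e.2

theorem mu_path_le {p : ℝ} (hp : p ∈ Set.Icc (0:ℝ) 1) {m : ℕ} {a : ℕ × ℕ} {l : List (ℕ × ℕ)}
    (hl : l ∈ paths m a) :
    mu p {ω | l.Nodup ∧ ∀ x ∈ l, Cls ω x} ≤ ENNReal.ofReal ((1 - p) ^ (m + 1)) := by
  classical
  by_cases hnd : l.Nodup
  · by_cases hval : ∀ x ∈ l, x.2 < 8 ^ x.1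
    · have h1 : {ω | l.Nodup ∧ ∀ x ∈ l, Cls ω x} ⊆ AllClosed (l.toFinset.image toV) := by
        rintro ω ⟨_, h⟩ v hv
        rw [Finset.mem_image] at hv
        obtain ⟨x, hx, rfl⟩ := hv
        obtain ⟨hk, ho⟩ := h x (List.mem_toFinset.mp hx)
        simp only [toV, hk, dif_pos]
        exact ho
      refine (measure_mono h1).trans ?_
      rw [mu_allClosed hp, Finset.card_image_of_injOn, List.toFinset_card_of_nodup hnd,
        paths_len hl, ENNReal.ofReal_pow (by linarith [hp.2])]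
      intro x hx y hy e
      exact toV_inj (hval x (List.mem_toFinset.mp hx)) (hval y (List.mem_toFinset.mp hy)) e
    · have h1 : {ω : Vtx → Bool | l.Nodup ∧ ∀ x ∈ l, Cls ω x} = ∅ := by
        ext ω
        simp only [Set.mem_ofPred_eq, Set.mem_empty_iff_false, iff_false]
        rintro ⟨_, h⟩
        exact hval (fun x hx => (h x hx).1)
      rw [h1]; simp
  · have h1 : {ω : Vtx → Bool | l.Nodup ∧ ∀ x ∈ l, Cls ω x} = ∅ := by
      ext ω; simp [hnd]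
    rw [h1]; simp

theorem star_term (n : ℕ) :
    (8:ℝ) ^ n * (15 ^ (n / 8) * ((1 / 2) ^ 40) ^ (n / 8 + 1)) ≤ (1 / 2) ^ (n + 3) := by
  set a := n / 8 with ha
  have h1 : (8:ℝ) ^ n = 2 ^ (3 * n) := by rw [pow_mul]; norm_num
  have h2 : (15:ℝ) ^ a ≤ 2 ^ (4 * a) := by
    rw [pow_mul]; exact pow_le_pow_left₀ (by norm_num) (by norm_num) a
  have h3 : (((1:ℝ) / 2) ^ 40) ^ (a + 1) = 1 / 2 ^ (40 * (a + 1)) := by
    rw [← pow_mul, one_div_pow]
  have h4 : ((1:ℝ) / 2) ^ (n + 3) = 1 / 2 ^ (n + 3) := by rw [one_div_pow]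
  rw [h1, h3, h4]
  have h5 : (2:ℝ) ^ (3 * n) * (2 ^ (4 * a)) * 2 ^ (n + 3) ≤ 2 ^ (40 * (a + 1)) := by
    rw [← pow_add, ← pow_add]
    exact pow_le_pow_right₀ (by norm_num) (by omega)
  calc (2:ℝ) ^ (3 * n) * (15 ^ a * (1 / 2 ^ (40 * (a + 1))))
      ≤ 2 ^ (3 * n) * (2 ^ (4 * a) * (1 / 2 ^ (40 * (a + 1)))) := by gcongr
    _ ≤ 1 / 2 ^ (n + 3) := by
        rw [← mul_assoc, mul_one_div, div_le_div_iff₀ (by positivity) (by positivity), one_mul]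
        exact h5

theorem mu_star : mu (1 - (1 / 2) ^ 40) {ω | ¬ EStar ω} ≤ ENNReal.ofReal (1 / 4) := by
  classical
  have hp : (1 - (1 / 2) ^ 40 : ℝ) ∈ Set.Icc (0:ℝ) 1 := by constructor <;> norm_num
  have h1 : {ω | ¬ EStar ω} ⊆ ⋃ n : ℕ, ⋃ k ∈ Finset.range (8 ^ n),
      ⋃ l ∈ (paths (n / 8) (n, k)).toFinset, {ω | l.Nodup ∧ ∀ x ∈ l, Cls ω x} := by
    intro ω hω
    simp only [Set.mem_ofPred_eq, EStar] at hω
    push Not at hω
    obtain ⟨n, k, hk, l, hl, hnd, hc⟩ := hω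
    simp only [Set.mem_iUnion]
    exact ⟨n, k, Finset.mem_range.mpr hk, l, List.mem_toFinset.mpr hl, hnd, hc⟩
  refine (measure_mono h1).trans ((measure_iUnion_le _).trans ?_)
  refine le_trans (ENNReal.tsum_le_tsum (fun n => ?_)) tsum_quarter
  refine (measure_biUnion_finset_le _ _).trans ?_
  have h2 : ∀ k ∈ Finset.range (8 ^ n),
      mu (1 - (1 / 2) ^ 40) (⋃ l ∈ (paths (n / 8) (n, k)).toFinset,
        {ω | l.Nodup ∧ ∀ x ∈ l, Cls ω x}) ≤
      ENNReal.ofReal (15 ^ (n / 8) * ((1 / 2) ^ 40) ^ (n / 8 + 1)) := by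
    intro k _
    refine (measure_biUnion_finset_le _ _).trans ?_
    have h3 : ∀ l ∈ (paths (n / 8) (n, k)).toFinset,
        mu (1 - (1 / 2) ^ 40) {ω | l.Nodup ∧ ∀ x ∈ l, Cls ω x} ≤
        ENNReal.ofReal (((1 / 2) ^ 40) ^ (n / 8 + 1)) := by
      intro l hl
      have := mu_path_le hp (List.mem_toFinset.mp hl)
      rwa [sub_sub_cancel] at this
    refine (Finset.sum_le_card_nsmul _ _ _ h3).trans ?_
    have h15 : ENNReal.ofReal (15 ^ (n / 8)) = ((15 ^ (n / 8) : ℕ) : ENNReal) := by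
      rw [ENNReal.ofReal_pow (by norm_num), ENNReal.ofReal_ofNat]; push_cast; rfl
    rw [nsmul_eq_mul, ENNReal.ofReal_mul (by positivity), h15]
    gcongr
    have h4 := List.toFinset_card_le (paths (n / 8) (n, k))
    rw [paths_length] at h4
    exact h4
  refine (Finset.sum_le_card_nsmul _ _ _ h2).trans ?_
  rw [nsmul_eq_mul, Finset.card_range]
  have h5 : ((8 ^ n : ℕ) : ENNReal) = ENNReal.ofReal (8 ^ n) := by
    rw [ENNReal.ofReal_pow (by norm_num), ENNReal.ofReal_ofNat]; push_cast; rfl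
  rw [h5, ← ENNReal.ofReal_mul (by positivity)]
  exact ENNReal.ofReal_le_ofReal (star_term n)

/-- children arithmetic -/
theorem child_lt {j i r : ℕ} (hi : i < 8 ^ (h j)) (hr : r < 8 ^ (h (j + 1) - h j)) :
    i * 8 ^ (h (j + 1) - h j) + r < 8 ^ (h (j + 1)) := by
  have hle : h j ≤ h (j + 1) := h_mono (Nat.le_succ j)
  have hmul : 8 ^ (h (j + 1)) = 8 ^ (h j) * 8 ^ (h (j + 1) - h j) := by
    rw [← pow_add]; congr 1; omega
  rw [hmul]
  calc i * 8 ^ (h (j + 1) - h j) + r < (i + 1) * 8 ^ (h (j + 1) - h j) := by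
        rw [add_mul, one_mul]; omega
    _ ≤ _ := Nat.mul_le_mul_right _ hi

theorem child_div {j i r : ℕ} (hr : r < 8 ^ (h (j + 1) - h j)) :
    (i * 8 ^ (h (j + 1) - h j) + r) / 8 ^ (h (j + 1) - h j) = i := by
  apply Nat.div_eq_of_lt_le
  · omega
  · rw [add_mul, one_mul]; omega

/-- General union bound over the `T`-vertices. -/
theorem mu_T {p : ℝ} (hp0 : 0 < p) (hp1 : p ≤ 1) (s : ℕ → ℕ)
    (S : (j i : ℕ) → (hi : i < 8 ^ (h j)) → Fin (8 ^ (h (j + 1) - h j)) → Finset Vtx)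
    (hs : ∀ j i hi c, (S j i hi c).card = s j)
    (hd : ∀ j i hi c c', c ≠ c' → Disjoint (S j i hi c) (S j i hi c'))
    (hb : ∀ j, 8 ^ (h j) * (1 / (((8 ^ (h (j + 1) - h j) : ℕ) : ℝ) * p ^ (s j))) ≤
      (1 / 2) ^ (j + 3)) :
    mu p {ω | ∃ j i, ∃ hi : i < 8 ^ (h j), ∀ c, ω ∉ AllOpen (S j i hi c)} ≤
      ENNReal.ofReal (1 / 4) := by
  classical
  have h1 : {ω | ∃ j i, ∃ hi : i < 8 ^ (h j), ∀ c, ω ∉ AllOpen (S j i hi c)} ⊆
      ⋃ j : ℕ, ⋃ i ∈ (Finset.univ : Finset (Fin (8 ^ (h j)))),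
        {ω | ∀ c, ω ∉ AllOpen (S j i.1 i.2 c)} := by
    rintro ω ⟨j, i, hi, hω⟩
    simp only [Set.mem_iUnion]
    exact ⟨j, ⟨i, hi⟩, Finset.mem_univ _, hω⟩
  refine (measure_mono h1).trans ((measure_iUnion_le _).trans ?_)
  refine le_trans (ENNReal.tsum_le_tsum (fun j => ?_)) tsum_quarter
  refine (measure_biUnion_finset_le _ _).trans ?_
  have h2 : ∀ i ∈ (Finset.univ : Finset (Fin (8 ^ (h j)))),
      mu p {ω | ∀ c, ω ∉ AllOpen (S j i.1 i.2 c)} ≤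
        ENNReal.ofReal (1 / (((8 ^ (h (j + 1) - h j) : ℕ) : ℝ) * p ^ (s j))) := by
    intro i _
    exact block_le hp0 hp1 _ (by positivity) _ _ (hs j i.1 i.2) (hd j i.1 i.2)
  refine (Finset.sum_le_card_nsmul _ _ _ h2).trans ?_
  rw [nsmul_eq_mul, Finset.card_univ, Fintype.card_fin]
  have h5 : ((8 ^ (h j) : ℕ) : ENNReal) = ENNReal.ofReal (8 ^ (h j)) := by
    rw [ENNReal.ofReal_pow (by norm_num), ENNReal.ofReal_ofNat]; push_cast; rfl
  rw [h5, ← ENNReal.ofReal_mul (by positivity)]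
  exact ENNReal.ofReal_le_ofReal (hb j)

/-- numerical condition -/
theorem T_term {p : ℝ} {j s t : ℕ} (hp : (1 / 2 : ℝ) ^ t ≤ p ^ s) (hp0 : 0 < p)
    (ht : 6 * h j + j + 3 + t ≤ 3 * h (j + 1)) :
    8 ^ (h j) * (1 / (((8 ^ (h (j + 1) - h j) : ℕ) : ℝ) * p ^ s)) ≤ (1 / 2) ^ (j + 3) := by
  have hle : h j ≤ h (j + 1) := h_mono (Nat.le_succ j)
  push_cast
  rw [mul_one_div, one_div_pow, div_le_div_iff₀ (by positivity) (by positivity), one_mul]
  have e1 : (8:ℝ) ^ (h j) = 2 ^ (3 * h j) := by rw [pow_mul]; norm_num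
  have e2 : (8:ℝ) ^ (h (j + 1) - h j) = 2 ^ (3 * (h (j + 1) - h j)) := by
    rw [pow_mul]; norm_num
  rw [e1, e2]
  have h1 : (2:ℝ) ^ (3 * (h (j + 1) - h j)) * (1 / 2) ^ t ≤
      2 ^ (3 * (h (j + 1) - h j)) * p ^ s := by gcongr
  refine le_trans ?_ h1
  rw [one_div_pow, mul_one_div, le_div_iff₀ (by positivity), ← pow_add, ← pow_add]
  exact pow_le_pow_right₀ (by norm_num) (by omega)

end Pool.Agent.Lib.MP_a838d0_pr
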