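import Mathlib
import Pool.Agent.Lib.MP_a838d0_pr.Planar

set_option autoImplicit false

/-! The straight-line drawing of `G` has no crossings. -/

namespace Pool.Agent.Lib.MP_a838d0_pr

theorem fan {a b b' c d t t' : ℝ} (hc : c ≠ d) (ht : 0 < t)
    (h1 : d + t * (c - d) = d + t' * (c - d)) (h2 : a + t * (b - a) = a + t' * (b' - a)) :
    b = b' := by
  have h3 : t = t' := by
    have : (t - t') * (c - d) = 0 := by linarith
    rcases mul_eq_zero.mp this with h | h
    · linarith
    · exact absurd (by linarith) hc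
  subst h3
  have : t * (b - b') = 0 := by linarith
  rcases mul_eq_zero.mp this with h | h
  · linarith
  · linarith

theorem arc_re (u v : Vtx) (t : ℝ) : (arc u v t).re = X u + t * (X v - X u) := rfl
theorem arc_im (u v : Vtx) (t : ℝ) : (arc u v t).im = Y u + t * (Y v - Y u) := rfl

theorem X_F_inj {n k k' : ℕ} (hk : k < 8 ^ n) (hk' : k' < 8 ^ n)
    (e : X (.F n k hk) = X (.F n k' hk')) : k = k' := by
  rw [X_F, X_F, div_left_inj' (by positivity)] at e
  have : (k : ℝ) = k' := by linarith
  exact_mod_cast this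

/-- the rung misses the `F` parent-child edges -/
theorem fp_rg {n k k' j i : ℕ} (hk : k < 8 ^ n) (hk' : k' < 8 ^ (n + 1)) (e : k' / 8 = k)
    (hi : i < 8 ^ (h j)) (hf : foot j i < 8 ^ (nn j))
    {t t' : ℝ} (h1 : 0 < t) (h2 : t < 1) (h3 : 0 < t') (h4 : t' < 1)
    (hz : arc (.F n k hk) (.F (n + 1) k' hk') t = arc (.T j i hi) (.F (nn j) (foot j i) hf) t') :
    False := by
  obtain ⟨a1, a2, a3, a4⟩ := fp_info hk hk' e h1 h2 rfl
  obtain ⟨b1, b2, b3⟩ := rg_info hi hf h3 h4 rfl
  rw [← hz] at b1 b2 b3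
  have h5 := half_lt.mp (a1.trans b3)
  rw [b1] at a3 a4
  rcases (show nn j < n ∨ nn j = n by omega) with h6 | h6
  · exact no_int_between (by positivity) a3 a4 (xs_int h6)
  · subst h6
    -- the apex is the foot
    have hxs : xs j i = ((foot j i : ℝ) + 1 / 2) / 8 ^ (nn j) := rfl
    have hfk : foot j i = k := by
      refine int_unique (d := 8 ^ (nn j)) (a := xs j i) (by positivity) ?_ ?_ a3 a4
      · rw [hxs, div_lt_div_iff_of_pos_right (by positivity)]; linarith
      · rw [hxs, div_lt_div_iff_of_pos_right (by positivity)]; linarith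
    have h7 : X (.F (nn j) k hk) = xs j i := by rw [hxs, hfk]; rfl
    rw [arc_re, h7] at b1
    have h8 : X (.F (nn j + 1) k' hk') = xs j i := by
      have : t * (X (.F (nn j + 1) k' hk') - xs j i) = 0 := by linarith
      rcases mul_eq_zero.mp this with h | h
      · linarith
      · linarith
    have h9 := X_F_mem (nn j + 1) k' hk'
    rw [h8] at h9
    exact no_int_between (by positivity) h9.1 h9.2 (xs_int (Nat.lt_succ_self _))

theorem fh_rg {n k j i : ℕ} (hk : k < 8 ^ n) (hk' : k + 1 < 8 ^ n) (hc : ¬ cut n k)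
    (hi : i < 8 ^ (h j)) (hf : foot j i < 8 ^ (nn j))
    {t t' : ℝ} (h1 : 0 < t) (h2 : t < 1) (h3 : 0 < t') (h4 : t' < 1)
    (hz : arc (.F n k hk) (.F n (k + 1) hk') t = arc (.T j i hi) (.F (nn j) (foot j i) hf) t') :
    False := by
  obtain ⟨a1, a2, a3⟩ := fh_info hk hk' h1 h2 rfl
  obtain ⟨b1, b2, b3⟩ := rg_info hi hf h3 h4 rfl
  rw [← hz] at b1 b2 b3
  rw [a1] at b3
  have h5 := half_lt.mp b3
  rw [b1, xs_int h5] at a2 a3
  rw [div_lt_div_iff_of_pos_right (by positivity)] at a2 a3
  apply hc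
  refine ⟨j, i, h5, ?_⟩
  set m := (2 * foot j i + 1) * (4 * 8 ^ (n - nn j - 1)) with hm
  have h6 : k < m := by
    have : (k : ℝ) < m := by linarith
    exact_mod_cast this
  have h7 : m < k + 2 := by
    have : (m : ℝ) < k + 2 := by linarith
    exact_mod_cast this
  omega

theorem tp_rg {j' i' i'' j i : ℕ} (hi' : i' < 8 ^ (h j')) (hi'' : i'' < 8 ^ (h (j' + 1)))
    (e : i'' / 8 ^ (h (j' + 1) - h j') = i')
    (hi : i < 8 ^ (h j)) (hf : foot j i < 8 ^ (nn j))
    {t t' : ℝ} (h1 : 0 < t) (h2 : t < 1) (h3 : 0 < t') (h4 : t' < 1)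
    (hz : arc (.T j' i' hi') (.T (j' + 1) i'' hi'') t
      = arc (.T j i hi) (.F (nn j) (foot j i) hf) t') :
    False := by
  obtain ⟨a1, a2, a3, a4⟩ := tp_info hi' hi'' e h1 h2 rfl
  obtain ⟨b1, b2, b3⟩ := rg_info hi hf h3 h4 rfl
  rw [← hz] at b1 b2 b3
  have h5 := half_lt.mp (a1.trans b2)
  rw [b1] at a3 a4
  rcases (show j < j' ∨ j = j' by omega) with h6 | h6
  · exact no_int_between (by positivity) a3 a4 (xs_int (nn_lt_h h6))
  · subst h6
    have hii : i = i' :=
      int_unique (d := 8 ^ (h j)) (a := xs j i) (by positivity) (xs_lb j i) (xs_ub j i) a3 a4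
    subst hii
    rw [arc_re, X_T, X_T] at b1
    have h8 : xs (j + 1) i'' = xs j i := by
      have : t * (xs (j + 1) i'' - xs j i) = 0 := by linarith
      rcases mul_eq_zero.mp this with h | h
      · linarith
      · linarith
    have := (xs_inj h8).1
    omega

theorem fp_im_neg {n k k' : ℕ} (hk : k < 8 ^ n) (hk' : k' < 8 ^ (n + 1)) (e : k' / 8 = k) {t : ℝ}
    (h5 : 0 < t) (h6 : t < 1) : (arc (.F n k hk) (.F (n + 1) k' hk') t).im < 0 := by
  obtain ⟨a1, a2, a3, a4⟩ := fp_info hk hk' e h5 h6 rfl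
  have := half_pos (n + 1)
  linarith

theorem fh_im_neg {n k : ℕ} (hk : k < 8 ^ n) (hk' : k + 1 < 8 ^ n) {t : ℝ}
    (h5 : 0 < t) (h6 : t < 1) : (arc (.F n k hk) (.F n (k + 1) hk') t).im < 0 := by
  obtain ⟨a1, a2, a3⟩ := fh_info hk hk' h5 h6 rfl
  have := half_pos n
  linarith

theorem tp_im_pos {j i i' : ℕ} (hi : i < 8 ^ (h j)) (hi' : i' < 8 ^ (h (j + 1)))
    (e : i' / 8 ^ (h (j + 1) - h j) = i) {t : ℝ} (h5 : 0 < t) (h6 : t < 1) :
    0 < (arc (.T j i hi) (.T (j + 1) i' hi') t).im := by
  obtain ⟨a1, a2, a3, a4⟩ := tp_info hi hi' e h5 h6 rfl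
  have := half_pos (j + 1)
  linarith

theorem fp_fh {n k k' m l : ℕ} (hk : k < 8 ^ n) (hk' : k' < 8 ^ (n + 1)) (e : k' / 8 = k)
    (hl : l < 8 ^ m) (hl' : l + 1 < 8 ^ m)
    {t t' : ℝ} (h1 : 0 < t) (h2 : t < 1) (h3 : 0 < t') (h4 : t' < 1)
    (hz : arc (.F n k hk) (.F (n + 1) k' hk') t = arc (.F m l hl) (.F m (l + 1) hl') t') :
    False := by
  obtain ⟨a1, a2, a3, a4⟩ := fp_info hk hk' e h1 h2 rfl
  obtain ⟨b1, b2, b3⟩ := fh_info hl hl' h3 h4 rfl
  rw [← hz] at b1
  exact half_strip' a1 a2 b1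

/-- The open segments of distinct edges are disjoint. -/
theorem arc_cross {u v u' v' : Vtx} (e : Adj0 u v) (e' : Adj0 u' v') {t t' : ℝ}
    (h1 : 0 < t) (h2 : t < 1) (h3 : 0 < t') (h4 : t' < 1)
    (hz : arc u v t = arc u' v' t') : u = u' ∧ v = v' := by
  cases e with
  | fp n k k' hk hk' ek =>
    cases e' with
    | fp m l l' hl hl' el =>
      obtain ⟨a1, a2, a3, a4⟩ := fp_info hk hk' ek h1 h2 rfl
      obtain ⟨b1, b2, b3, b4⟩ := fp_info hl hl' el h3 h4 rfl
      rw [← hz] at b1 b2 b3 b4
      obtain rfl := half_strip a1 a2 b1 b2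
      obtain rfl := int_unique (by positivity) a3 a4 b3 b4
      refine ⟨rfl, ?_⟩
      have hx : X (.F (n + 1) k' hk') = X (.F (n + 1) l' hl') := by
        have hre := congrArg Complex.re hz
        have him := congrArg Complex.im hz
        rw [arc_re, arc_re] at hre
        rw [arc_im, arc_im] at him
        refine fan (c := Y (.F (n + 1) k' hk')) (d := Y (.F n k hk)) ?_ h1 him hre
        simp only [Y]
        intro h
        have := half_inj (neg_injective h)
        omega
      obtain rfl := X_F_inj hk' hl' hx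
      rfl
    | fh m l hl hl' hc => exact (fp_fh hk hk' ek hl hl' h1 h2 h3 h4 hz).elim
    | tp j i i' hi hi' ei =>
      have := fp_im_neg hk hk' ek h1 h2
      have := tp_im_pos hi hi' ei h3 h4
      rw [hz] at *
      linarith
    | rg j i hi hf => exact (fp_rg hk hk' ek hi hf h1 h2 h3 h4 hz).elim
  | fh n k hk hk' hc =>
    cases e' with
    | fp m l l' hl hl' el => exact (fp_fh hl hl' el hk hk' h3 h4 h1 h2 hz.symm).elim
    | fh m l hl hl' hc' =>
      obtain ⟨a1, a2, a3⟩ := fh_info hk hk' h1 h2 rfl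
      obtain ⟨b1, b2, b3⟩ := fh_info hl hl' h3 h4 rfl
      rw [← hz] at b1 b2 b3
      obtain rfl := half_inj (a1.symm.trans b1)
      have h5 := a2.trans b3
      have h6 := b2.trans a3
      rw [div_lt_div_iff_of_pos_right (by positivity)] at h5 h6
      have h7 : k < l + 1 := by
        have : (k : ℝ) < l + 1 := by linarith
        exact_mod_cast this
      have h8 : l < k + 1 := by
        have : (l : ℝ) < k + 1 := by linarith
        exact_mod_cast this
      obtain rfl : k = l := by omega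
      exact ⟨rfl, rfl⟩
    | tp j i i' hi hi' ei =>
      have := fh_im_neg hk hk' h1 h2
      have := tp_im_pos hi hi' ei h3 h4
      rw [hz] at *
      linarith
    | rg j i hi hf => exact (fh_rg hk hk' hc hi hf h1 h2 h3 h4 hz).elim
  | tp j i i' hi hi' ei =>
    cases e' with
    | fp m l l' hl hl' el =>
      have := fp_im_neg hl hl' el h3 h4
      have := tp_im_pos hi hi' ei h1 h2
      rw [hz] at *
      linarith
    | fh m l hl hl' hc =>
      have := fh_im_neg hl hl' h3 h4
      have := tp_im_pos hi hi' ei h1 h2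
      rw [hz] at *
      linarith
    | tp j2 i2 i2' hi2 hi2' ei2 =>
      obtain ⟨a1, a2, a3, a4⟩ := tp_info hi hi' ei h1 h2 rfl
      obtain ⟨b1, b2, b3, b4⟩ := tp_info hi2 hi2' ei2 h3 h4 rfl
      rw [← hz] at b1 b2 b3 b4
      obtain rfl := half_strip a1 a2 b1 b2
      obtain rfl := int_unique (by positivity) a3 a4 b3 b4
      refine ⟨rfl, ?_⟩
      have hx : X (.T (j + 1) i' hi') = X (.T (j + 1) i2' hi2') := by
        have hre := congrArg Complex.re hz
        have him := congrArg Complex.im hz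
        rw [arc_re, arc_re] at hre
        rw [arc_im, arc_im] at him
        refine fan (c := Y (.T (j + 1) i' hi')) (d := Y (.T j i hi)) ?_ h1 him hre
        simp only [Y]
        intro h
        have := half_inj h
        omega
      obtain rfl := (xs_inj hx).2
      rfl
    | rg j2 i2 hi2 hf => exact (tp_rg hi hi' ei hi2 hf h1 h2 h3 h4 hz).elim
  | rg j i hi hf =>
    cases e' with
    | fp m l l' hl hl' el => exact (fp_rg hl hl' el hi hf h3 h4 h1 h2 hz.symm).elim
    | fh m l hl hl' hc => exact (fh_rg hl hl' hc hi hf h3 h4 h1 h2 hz.symm).elim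
    | tp j2 i2 i2' hi2 hi2' ei2 => exact (tp_rg hi2 hi2' ei2 hi hf h3 h4 h1 h2 hz.symm).elim
    | rg j2 i2 hi2 hf2 =>
      obtain ⟨a1, a2, a3⟩ := rg_info hi hf h1 h2 rfl
      obtain ⟨b1, b2, b3⟩ := rg_info hi2 hf2 h3 h4 rfl
      rw [← hz, a1] at b1
      obtain ⟨rfl, rfl⟩ := xs_inj b1
      exact ⟨rfl, rfl⟩

/-- The open segments contain no vertex. -/
theorem arc_vtx {u v : Vtx} (e : Adj0 u v) {t : ℝ} (h1 : 0 < t) (h2 : t < 1) (w : Vtx) :
    arc u v t ≠ pos w := by
  intro hz
  have hre : (arc u v t).re = X w := by rw [hz]; rfl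
  have him : (arc u v t).im = Y w := by rw [hz]; rfl
  cases e with
  | fp n k k' hk hk' ek =>
    obtain ⟨a1, a2, a3, a4⟩ := fp_info hk hk' ek h1 h2 rfl
    cases w with
    | F m l hl =>
      refine half_strip' a1 a2 (m := m) ?_
      rw [him]; simp [Y]
    | T j i hi =>
      have := fp_im_neg hk hk' ek h1 h2
      rw [him] at this
      have h3 : Y (.T j i hi) = (1 / 2) ^ j := rfl
      have := half_pos j
      linarith
  | fh n k hk hk' hc =>
    obtain ⟨a1, a2, a3⟩ := fh_info hk hk' h1 h2 rfl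
    cases w with
    | F m l hl =>
      rw [him] at a1
      obtain rfl : m = n := half_inj (by simpa [Y] using a1)
      rw [hre, X_F, div_lt_div_iff_of_pos_right (by positivity)] at a2 a3
      have h7 : k < l := by
        have : (k : ℝ) < l := by linarith
        exact_mod_cast this
      have h8 : l < k + 1 := by
        have : (l : ℝ) < k + 1 := by linarith
        exact_mod_cast this
      omega
    | T j i hi =>
      have := fh_im_neg hk hk' h1 h2
      rw [him] at this
      have h3 : Y (.T j i hi) = (1 / 2) ^ j := rfl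
      have := half_pos j
      linarith
  | tp j i i' hi hi' ei =>
    obtain ⟨a1, a2, a3, a4⟩ := tp_info hi hi' ei h1 h2 rfl
    cases w with
    | F m l hl =>
      have := tp_im_pos hi hi' ei h1 h2
      rw [him] at this
      have h3 : Y (.F m l hl) = -(1 / 2) ^ m := rfl
      have := half_pos m
      linarith
    | T j2 i2 hi2 =>
      exact half_strip' a1 a2 (m := j2) (by rw [him]; rfl)
  | rg j i hi hf =>
    obtain ⟨a1, a2, a3⟩ := rg_info hi hf h1 h2 rfl
    cases w with
    | F m l hl =>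
      rw [him] at a3
      have h3 : -Y (.F m l hl) = (1 / 2) ^ m := by simp [Y]
      rw [h3] at a3
      have h5 := half_lt.mp a3
      have h6 := X_F_mem m l hl
      rw [← hre, a1] at h6
      exact no_int_between (by positivity) h6.1 h6.2 (xs_int h5)
    | T j2 i2 hi2 =>
      rw [him] at a2
      have h5 : j < j2 := half_lt.mp a2
      rw [hre] at a1
      have := (xs_inj a1).1
      omega

theorem pos_inj : Function.Injective pos := by
  intro u v hz
  have hre : X u = X v := congrArg Complex.re hz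
  have him : Y u = Y v := congrArg Complex.im hz
  cases u with
  | F n k hk =>
    cases v with
    | F m l hl =>
      obtain rfl : n = m := half_inj (neg_injective him)
      obtain rfl := X_F_inj hk hl hre
      rfl
    | T j i hi =>
      have h1 : -(1 / 2 : ℝ) ^ n = (1 / 2) ^ j := him
      have := half_pos n
      have := half_pos j
      linarith
  | T j i hi =>
    cases v with
    | F m l hl =>
      have h1 : (1 / 2 : ℝ) ^ j = -(1 / 2) ^ m := him
      have := half_pos m
      have := half_pos j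
      linarith
    | T j2 i2 hi2 =>
      obtain ⟨rfl, rfl⟩ := xs_inj hre
      rfl

theorem arc_symm (u v : Vtx) (t : ℝ) : arc u v t = arc v u (1 - t) := by
  apply Complex.ext
  · rw [arc_re, arc_re]; ring
  · rw [arc_im, arc_im]; ring

theorem arc_zero (u v : Vtx) : arc u v 0 = pos u := by
  apply Complex.ext <;> simp [arc, pos]

theorem arc_one (u v : Vtx) : arc u v 1 = pos v := by
  apply Complex.ext <;> simp [arc, pos]

theorem arc_continuous (u v : Vtx) : Continuous (arc u v) := by
  have : arc u v = fun t : ℝ => pos u + (t : ℂ) * (pos v - pos u) := by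
    funext t
    apply Complex.ext <;> simp [arc, pos]
  rw [this]
  fun_prop

theorem arc_inj {u v : Vtx} (huv : u ≠ v) : Function.Injective (arc u v) := by
  intro s t hst
  have hre := congrArg Complex.re hst
  have him := congrArg Complex.im hst
  rw [arc_re, arc_re] at hre
  rw [arc_im, arc_im] at him
  by_contra hne
  apply huv
  apply pos_inj
  have h0 : s - t ≠ 0 := sub_ne_zero.mpr hne
  apply Complex.ext
  · have : (s - t) * (X v - X u) = 0 := by linarith
    have := (mul_eq_zero.mp this).resolve_left h0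
    simp only [pos]; linarith
  · have : (s - t) * (Y v - Y u) = 0 := by linarith
    have := (mul_eq_zero.mp this).resolve_left h0
    simp only [pos]; linarith

theorem planar : ∃ f : Vtx → ℂ, Function.Injective f ∧ ∃ γ : Vtx → Vtx → ℝ → ℂ, ∀ u v, G.Adj u v →
     ContinuousOn (γ u v) (Set.Icc 0 1) ∧ Set.InjOn (γ u v) (Set.Icc 0 1) ∧
     γ u v 0 = f u ∧ γ u v 1 = f v ∧
     (∀ t ∈ Set.Ioo (0:ℝ) 1, ∀ w, γ u v t ≠ f w) ∧
     ∀ u' v', G.Adj u' v' → ∀ t ∈ Set.Ioo (0:ℝ) 1, ∀ t' ∈ Set.Ioo (0:ℝ) 1,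
       γ u v t = γ u' v' t' → (u = u' ∧ v = v') ∨ (u = v' ∧ v = u') := by
  refine ⟨pos, pos_inj, arc, fun u v huv => ⟨(arc_continuous u v).continuousOn,
    (arc_inj (G.ne_of_adj huv)).injOn, arc_zero u v, arc_one u v, ?_, ?_⟩⟩
  · rintro t ⟨h1, h2⟩ w
    rcases huv with huv | huv
    · exact arc_vtx huv h1 h2 w
    · rw [arc_symm]
      exact arc_vtx huv (by linarith) (by linarith) w
  · rintro u' v' huv' t ⟨h1, h2⟩ t' ⟨h3, h4⟩ hz
    rcases huv with huv | huv <;> rcases huv' with huv' | huv'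
    · exact Or.inl (arc_cross huv huv' h1 h2 h3 h4 hz)
    · rw [arc_symm u' v'] at hz
      have := arc_cross huv huv' h1 h2 (by linarith) (by linarith) hz
      exact Or.inr this
    · rw [arc_symm u v] at hz
      have := arc_cross huv huv' (by linarith) (by linarith) h3 h4 hz
      exact Or.inr ⟨this.2, this.1⟩
    · rw [arc_symm u v, arc_symm u' v'] at hz
      have := arc_cross huv huv' (by linarith) (by linarith) (by linarith) (by linarith) hz
      exact Or.inl ⟨this.2, this.1⟩

end Pool.Agent.Lib.MP_a838d0_pr
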