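import Mathlib
import Pool.Agent.Lib.MP_a838d0_pr.Bounds
import Pool.Agent.Lib.MP_a838d0_pr.Planar2

set_option autoImplicit false

/-! Assembly. -/

namespace Pool.Agent.Lib.MP_a838d0_pr

open MeasureTheory

theorem foot_inj {j i i' : ℕ} (e : foot j i = foot j i') : i = i' := by
  unfold foot at e
  have h1 : i * 8 ^ (h j + 2) = i' * 8 ^ (h j + 2) := by omega
  exact Nat.eq_of_mul_eq_mul_right (by positivity) h1

/-- every `T`-vertex has an open child -/
def EC (ω : Vtx → Bool) : Prop :=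
  ∀ j i, i < 8 ^ (h j) → ∃ i', ∃ hi' : i' < 8 ^ (h (j + 1)), i' / 8 ^ (h (j + 1) - h j) = i ∧
    ω (.T (j + 1) i' hi') = true

/-- blocks for `EC` -/
def SC (j i : ℕ) (hi : i < 8 ^ (h j)) (c : Fin (8 ^ (h (j + 1) - h j))) : Finset Vtx :=
  {Vtx.T (j + 1) (i * 8 ^ (h (j + 1) - h j) + c.1) (child_lt hi c.2)}

theorem mu_EC {p : ℝ} (hp0 : (1 / 2) ^ 41 < p) (hp1 : p ≤ 1) :
    mu p {ω | ¬ EC ω} ≤ ENNReal.ofReal (1 / 4) := by
  have hp0' : 0 < p := lt_trans (by positivity) hp0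
  have key := mu_T hp0' hp1 (fun _ => 1) SC (fun j i hi c => by simp [SC]) (by
    intro j i hi c c' hcc
    simp only [SC, Finset.disjoint_singleton_left, Finset.mem_singleton, Vtx.T.injEq, true_and]
    intro he
    apply hcc
    apply Fin.ext
    omega) (by
    intro j
    refine T_term (t := 41) (by rw [pow_one]; exact hp0.le) hp0' ?_
    rw [h_succ]; omega)
  refine (measure_mono ?_).trans key
  intro ω hω
  simp only [Set.mem_ofPred_eq, EC] at hω ⊢
  push Not at hω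
  obtain ⟨j, i, hi, hω⟩ := hω
  refine ⟨j, i, hi, fun c hc => ?_⟩
  have h1 := hω (i * 8 ^ (h (j + 1) - h j) + c.1) (child_lt hi c.2) (child_div c.2)
  apply h1
  exact hc _ (by simp [SC])

theorem exists_infinite_of_EC {ω : Vtx → Bool} (hE : EC ω) :
    ∃ c : (G.induce {v | ω v = true}).ConnectedComponent, c.supp.Infinite := by
  choose f hf e1 e2 using hE
  let sq : (m : ℕ) → {i : ℕ // i < 8 ^ (h m)} := fun m =>
    Nat.rec (motive := fun m => {i : ℕ // i < 8 ^ (h m)}) ⟨0, by positivity⟩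
      (fun m x => ⟨f m x.1 x.2, hf m x.1 x.2⟩) m
  have hsq : ∀ m, sq (m + 1) = ⟨f m (sq m).1 (sq m).2, hf m (sq m).1 (sq m).2⟩ := fun m => rfl
  have hop : ∀ m, ω (.T (m + 1) (sq (m + 1)).1 (sq (m + 1)).2) = true := fun m =>
    e2 m (sq m).1 (sq m).2
  have hadj : ∀ m, G.Adj (.T m (sq m).1 (sq m).2) (.T (m + 1) (sq (m + 1)).1 (sq (m + 1)).2) :=
    fun m => Or.inl (Adj0.tp m _ _ (sq m).2 (sq (m + 1)).2 (e1 m (sq m).1 (sq m).2))
  let v : ℕ → {v : Vtx | ω v = true} := fun m => ⟨.T (m + 1) (sq (m + 1)).1 (sq (m + 1)).2, hop m⟩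
  have hreach : ∀ m, (OG ω).Reachable (v 0) (v m) := by
    intro m
    induction m with
    | zero => exact SimpleGraph.Reachable.refl _
    | succ m ih =>
      refine ih.trans (SimpleGraph.Adj.reachable ?_)
      exact hadj (m + 1)
  refine ⟨(OG ω).connectedComponentMk (v 0), ?_⟩
  refine Set.infinite_of_injective_forall_mem (f := v) ?_ ?_
  · intro a b hab
    have h1 := congrArg Subtype.val hab
    simp only [v, Vtx.T.injEq] at h1
    omega
  · intro m
    rw [SimpleGraph.ConnectedComponent.mem_supp_iff]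
    exact SimpleGraph.ConnectedComponent.sound (hreach m).symm

theorem pc_le {q : ℝ} (hq : q ∈ Set.Icc (0:ℝ) 1)
    (h0 : mu q {ω | ∃ c : (G.induce {v | ω v = true}).ConnectedComponent, c.supp.Infinite} = 0) :
    q ≤ (1 / 2) ^ 41 := by
  by_contra hcon
  push Not at hcon
  have hprob := mu_prob hq
  have h1 := mu_EC hcon hq.2
  have h2 : (Set.univ : Set (Vtx → Bool)) ⊆
      {ω | ∃ c : (G.induce {v | ω v = true}).ConnectedComponent, c.supp.Infinite} ∪
        {ω | ¬ EC ω} := by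
    intro ω _
    by_cases h3 : EC ω
    · exact Or.inl (exists_infinite_of_EC h3)
    · exact Or.inr h3
  have h3 := (measure_mono (μ := mu q) h2).trans (measure_union_le _ _)
  rw [measure_univ, h0, zero_add] at h3
  have h4 := h3.trans h1
  rw [← ENNReal.ofReal_one, ENNReal.ofReal_le_ofReal_iff (by norm_num)] at h4
  norm_num at h4

theorem asc_lt {j i' : ℕ} (hi' : i' < 8 ^ (h j)) (e : ℕ) :
    foot j i' * 8 ^ e < 8 ^ (nn j + e) := by
  rw [pow_add]; exact Nat.mul_lt_mul_of_pos_right (foot_lt j i' hi') (by positivity)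

/-- ascending path over the foot -/
def asc (j i' : ℕ) (hi' : i' < 8 ^ (h j)) (e : ℕ) : Vtx :=
  .F (nn j + e) (foot j i' * 8 ^ e) (asc_lt hi' e)

/-- blocks for `EH` -/
noncomputable def SH (j i : ℕ) (hi : i < 8 ^ (h j)) (c : Fin (8 ^ (h (j + 1) - h j))) :
    Finset Vtx := by
  classical
  exact insert (Vtx.T (j + 1) (i * 8 ^ (h (j + 1) - h j) + c.1) (child_lt hi c.2))
    ((Finset.range (nn (j + 1) / 8 + 1)).image
      (asc (j + 1) (i * 8 ^ (h (j + 1) - h j) + c.1) (child_lt hi c.2)))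

theorem mem_SH {j i : ℕ} {hi : i < 8 ^ (h j)} {c : Fin (8 ^ (h (j + 1) - h j))} {v : Vtx} :
    v ∈ SH j i hi c ↔
      v = Vtx.T (j + 1) (i * 8 ^ (h (j + 1) - h j) + c.1) (child_lt hi c.2) ∨
      ∃ e, e ≤ nn (j + 1) / 8 ∧
        v = asc (j + 1) (i * 8 ^ (h (j + 1) - h j) + c.1) (child_lt hi c.2) e := by
  classical
  unfold SH
  rw [Finset.mem_insert, Finset.mem_image]
  constructor
  · rintro (h1 | ⟨e, he, rfl⟩)
    · exact Or.inl h1
    · exact Or.inr ⟨e, by rw [Finset.mem_range] at he; omega, rfl⟩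
  · rintro (h1 | ⟨e, he, rfl⟩)
    · exact Or.inl h1
    · exact Or.inr ⟨e, by rw [Finset.mem_range]; omega, rfl⟩

theorem card_SH (j i : ℕ) (hi : i < 8 ^ (h j)) (c : Fin (8 ^ (h (j + 1) - h j))) :
    (SH j i hi c).card = nn (j + 1) / 8 + 2 := by
  classical
  unfold SH
  rw [Finset.card_insert_of_notMem, Finset.card_image_of_injective, Finset.card_range]
  · intro a b hab
    simp only [asc, Vtx.F.injEq] at hab
    omega
  · rw [Finset.mem_image]
    rintro ⟨e, _, he⟩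
    simp [asc] at he

theorem disj_SH (j i : ℕ) (hi : i < 8 ^ (h j)) (c c' : Fin (8 ^ (h (j + 1) - h j)))
    (hcc : c ≠ c') : Disjoint (SH j i hi c) (SH j i hi c') := by
  rw [Finset.disjoint_left]
  intro v hv hv'
  rw [mem_SH] at hv hv'
  apply hcc
  apply Fin.ext
  rcases hv with rfl | ⟨e, _, rfl⟩ <;> rcases hv' with h1 | ⟨e', _, h1⟩
  · simp only [Vtx.T.injEq, true_and] at h1
    omega
  · simp [asc] at h1
  · simp [asc] at h1
  · simp only [asc, Vtx.F.injEq] at h1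
    obtain ⟨h2, h3⟩ := h1
    have h4 : e = e' := by omega
    subst h4
    have h5 := Nat.eq_of_mul_eq_mul_right (by positivity) h3
    have := foot_inj h5
    omega

theorem mu_EH : mu (1 - (1 / 2) ^ 40) {ω | ¬ EH ω} ≤ ENNReal.ofReal (1 / 4) := by
  have key := mu_T (p := 1 - (1 / 2) ^ 40) (by norm_num) (by norm_num)
    (fun j => nn (j + 1) / 8 + 2) SH card_SH disj_SH (by
    intro j
    refine T_term (t := nn (j + 1) / 8 + 2) ?_ (by norm_num) ?_
    · exact pow_le_pow_left₀ (by norm_num) (by norm_num) _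
    · unfold nn
      have h1 := h_succ j
      omega)
  refine (measure_mono ?_).trans key
  intro ω hω
  simp only [Set.mem_ofPred_eq, EH] at hω ⊢
  push Not at hω
  obtain ⟨j, i, hi, hω⟩ := hω
  refine ⟨j, i, hi, fun c hc => ?_⟩
  have hT := hc _ (mem_SH.mpr (Or.inl rfl))
  obtain ⟨e, he, hne⟩ := hω (i * 8 ^ (h (j + 1) - h j) + c.1) (child_lt hi c.2) (child_div c.2) hT
  apply hne
  exact ⟨asc_lt (child_lt hi c.2) e, hc _ (mem_SH.mpr (Or.inr ⟨e, he, rfl⟩))⟩

theorem not_main : ¬ (∀ (V : Type) (G : SimpleGraph V) [G.LocallyFinite], G.Connected → (∀ v, 7 ≤ G.degree v) →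
  (∃ f : V → ℂ, Function.Injective f ∧ ∃ γ : V → V → ℝ → ℂ, ∀ u v, G.Adj u v →
     ContinuousOn (γ u v) (Set.Icc 0 1) ∧ Set.InjOn (γ u v) (Set.Icc 0 1) ∧
     γ u v 0 = f u ∧ γ u v 1 = f v ∧
     (∀ t ∈ Set.Ioo (0:ℝ) 1, ∀ w, γ u v t ≠ f w) ∧
     ∀ u' v', G.Adj u' v' → ∀ t ∈ Set.Ioo (0:ℝ) 1, ∀ t' ∈ Set.Ioo (0:ℝ) 1,
       γ u v t = γ u' v' t' → (u = u' ∧ v = v') ∨ (u = v' ∧ v = u')) →
  ∀ μ : ℝ → MeasureTheory.Measure (V → Bool),
    (∀ p ∈ Set.Icc (0:ℝ) 1, ∀ S : Finset V,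
      μ p {ω | ∀ v ∈ S, ω v = true} = ENNReal.ofReal p ^ S.card) →
    ∀ p : ℝ,
      sSup {q : ℝ | q ∈ Set.Icc (0:ℝ) 1 ∧
        μ q {ω | ∃ c : (G.induce {v | ω v = true}).ConnectedComponent, c.supp.Infinite} = 0} < p →
      p < 1 - sSup {q : ℝ | q ∈ Set.Icc (0:ℝ) 1 ∧
        μ q {ω | ∃ c : (G.induce {v | ω v = true}).ConnectedComponent, c.supp.Infinite} = 0} →
      ∀ᵐ ω ∂ μ p,
        {c : (G.induce {v | ω v = true}).ConnectedComponent | c.supp.Infinite}.Infinite) := by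
  intro H
  have hpc : sSup {q : ℝ | q ∈ Set.Icc (0:ℝ) 1 ∧
      mu q {ω | ∃ c : (G.induce {v | ω v = true}).ConnectedComponent, c.supp.Infinite} = 0}
      ≤ (1 / 2) ^ 41 := by
    apply Real.sSup_le
    · rintro q ⟨hq, h0⟩
      exact pc_le hq h0
    · positivity
  have h1 := H Vtx G connected seven_le_degree planar mu (fun p hp S => mu_allOpen hp S)
    (1 - (1 / 2) ^ 40) (lt_of_le_of_lt hpc (by norm_num)) (by
      have : ((1:ℝ) / 2) ^ 41 < (1 / 2) ^ 40 := by norm_num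
      linarith)
  have hp : (1 - (1 / 2) ^ 40 : ℝ) ∈ Set.Icc (0:ℝ) 1 := by constructor <;> norm_num
  have hprob := mu_prob hp
  rw [ae_iff] at h1
  have h2 : (Set.univ : Set (Vtx → Bool)) ⊆
      {ω | ¬ {c : (G.induce {v | ω v = true}).ConnectedComponent | c.supp.Infinite}.Infinite} ∪
        ({ω | ¬ EStar ω} ∪ {ω | ¬ EH ω}) := by
    intro ω _
    by_cases h3 : EStar ω
    · by_cases h4 : EH ω
      · exact Or.inl (unique_infinite h3 h4)
      · exact Or.inr (Or.inr h4)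
    · exact Or.inr (Or.inl h3)
  have h3 := (measure_mono (μ := mu (1 - (1 / 2) ^ 40)) h2).trans (measure_union_le _ _)
  rw [measure_univ, h1, zero_add] at h3
  have h4 := h3.trans ((measure_union_le _ _).trans (add_le_add mu_star mu_EH))
  rw [← ENNReal.ofReal_add (by norm_num) (by norm_num), ← ENNReal.ofReal_one,
    ENNReal.ofReal_le_ofReal_iff (by norm_num)] at h4
  norm_num at h4

end Pool.Agent.Lib.MP_a838d0_pr
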