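import Mathlib

set_option autoImplicit false

/-! Site percolation on the vertices of a graph, written out literally. -/

namespace Pool.Agent.Lib.MP_a838d0_pr.Own

open MeasureTheory

/-- Bernoulli site percolation with parameter `p`: the vertices are open (`true`) independently, each
with probability `p`. -/
noncomputable def siteMeasure (V : Type) (p : ℝ) : Measure (V → Bool) :=
  Measure.infinitePi
    (fun _ : V => ENNReal.ofReal p • Measure.dirac true + ENNReal.ofReal (1 - p) • Measure.dirac false)

/-- The open cluster of `v` in the configuration `ω`: the vertices joined to `v` by a walk in `G` all of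
whose vertices (its end points included) are open. -/
def openCluster {V : Type} (G : SimpleGraph V) (ω : V → Bool) (v : V) : Set V :=
  {w | ∃ p : G.Walk v w, ∀ x ∈ p.support, ω x = true}

/-- The set of the infinite open clusters in the configuration `ω`. -/
def infClusters {V : Type} (G : SimpleGraph V) (ω : V → Bool) : Set (Set V) :=
  {C | C.Infinite ∧ ∃ v, C = openCluster G ω v}

/-- The critical probability of site percolation: the infimum of the `p` in `[0,1]` at which an infinite
open cluster exists with positive probability. -/
noncomputable def critProb {V : Type} (G : SimpleGraph V) : ℝ :=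
  sInf {p : ℝ | 0 ≤ p ∧ p ≤ 1 ∧ 0 < siteMeasure V p {ω | (infClusters G ω).Nonempty}}

/-- `z` is a straight-line plane drawing of `G`: distinct vertices have distinct places, the open segment
drawn for an edge contains the place of no vertex, and the open segments drawn for two distinct edges
are disjoint. -/
def IsStraightDrawing {V : Type} (G : SimpleGraph V) (z : V → ℂ) : Prop :=
  Function.Injective z ∧
  (∀ u v w, G.Adj u v → z w ∉ openSegment ℝ (z u) (z v)) ∧
  (∀ u v u' v', G.Adj u v → G.Adj u' v' → s(u, v) ≠ s(u', v') →
    Disjoint (openSegment ℝ (z u) (z v)) (openSegment ℝ (z u') (z v')))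

end Pool.Agent.Lib.MP_a838d0_pr.Own
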