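import Pool.Agent.Lib.MP_a838d0_pr.Final
import Pool.Agent.Lib.MP_a838d0_pr.OwnDefs

set_option autoImplicit false

/-! A quantitative own form of the counterexample. -/

namespace Pool.Agent.Lib.MP_a838d0_pr.Own

open MeasureTheory
open Pool.Agent.Lib.MP_a838d0_pr

theorem site_eq (p : ℝ) : siteMeasure Vtx p = mu p := rfl

/-! ### the drawing -/

theorem seg_arc {u v : Vtx} {x : ℂ} (hx : x ∈ openSegment ℝ (pos u) (pos v)) :
    ∃ t : ℝ, 0 < t ∧ t < 1 ∧ arc u v t = x := by
  rw [openSegment_eq_image] at hx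
  obtain ⟨t, ⟨h0, h1⟩, rfl⟩ := hx
  refine ⟨t, h0, h1, ?_⟩
  apply Complex.ext
  · simp only [arc, pos, Complex.add_re, Complex.real_smul, Complex.mul_re, Complex.ofReal_re,
      Complex.ofReal_im]
    ring
  · simp only [arc, pos, Complex.add_im, Complex.real_smul, Complex.mul_im, Complex.ofReal_re,
      Complex.ofReal_im]
    ring

theorem straight : IsStraightDrawing G pos := by
  refine ⟨pos_inj, ?_, ?_⟩
  · intro u v w huv hw
    obtain ⟨t, h1, h2, h3⟩ := seg_arc hw
    rcases huv with huv | huv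
    · exact arc_vtx huv h1 h2 w h3
    · rw [arc_symm] at h3
      exact arc_vtx huv (by linarith) (by linarith) w h3
  · intro u v u' v' huv huv' hne
    rw [Set.disjoint_left]
    intro x hx hx'
    obtain ⟨t, h1, h2, rfl⟩ := seg_arc hx
    obtain ⟨t', h3, h4, hz⟩ := seg_arc hx'
    apply hne
    rcases huv with huv | huv <;> rcases huv' with huv' | huv'
    · obtain ⟨rfl, rfl⟩ := arc_cross huv huv' h1 h2 h3 h4 hz.symm
      rfl
    · rw [arc_symm u' v'] at hz
      obtain ⟨rfl, rfl⟩ := arc_cross huv huv' h1 h2 (by linarith) (by linarith) hz.symm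
      exact Sym2.eq_swap
    · rw [arc_symm u v] at hz
      obtain ⟨rfl, rfl⟩ := arc_cross huv huv' (by linarith) (by linarith) h3 h4 hz.symm
      exact Sym2.eq_swap
    · rw [arc_symm u v, arc_symm u' v'] at hz
      obtain ⟨rfl, rfl⟩ := arc_cross huv huv' (by linarith) (by linarith) (by linarith) (by linarith)
        hz.symm
      rfl

/-! ### the degrees -/

theorem eight_le_ncard (v : Vtx) (s : Fin 8 → Vtx) (hs : Function.Injective s)
    (ha : ∀ r, G.Adj v (s r)) : 8 ≤ (G.neighborSet v).ncard := by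
  have h1 : Set.range s ⊆ G.neighborSet v := by
    rintro w ⟨r, rfl⟩
    exact ha r
  have h2 := Set.ncard_le_ncard h1 (neighborSet_finite v)
  have h3 : (Set.range s).ncard = 8 := by
    rw [← Set.image_univ, Set.ncard_image_of_injective _ hs, Set.ncard_univ]
    simp
  omega

theorem eight_le (v : Vtx) : 8 ≤ (G.neighborSet v).ncard := by
  cases v with
  | F n k hk =>
    have hb : ∀ r : Fin 8, 8 * k + r.1 < 8 ^ (n + 1) := by
      intro r
      have := r.2
      rw [pow_succ]; omega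
    refine eight_le_ncard _ (fun r => .F (n + 1) (8 * k + r.1) (hb r)) ?_ ?_
    · intro a b hab
      simp only [Vtx.F.injEq] at hab
      apply Fin.ext
      omega
    · intro r
      refine Or.inl (Adj0.fp n k _ hk (hb r) ?_)
      have := r.2
      omega
  | T j i hi =>
    have hle : h j + 1 ≤ h (j + 1) := by
      have := nn_lt_h_succ j
      have := h_lt_nn j
      omega
    have h8 : 8 ≤ 8 ^ (h (j + 1) - h j) := by
      calc 8 = 8 ^ 1 := by norm_num
        _ ≤ _ := Nat.pow_le_pow_right (by norm_num) (by omega)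
    have hb : ∀ r : Fin 8, i * 8 ^ (h (j + 1) - h j) + r.1 < 8 ^ (h (j + 1)) :=
      fun r => child_lt hi (lt_of_lt_of_le r.2 h8)
    refine eight_le_ncard _ (fun r => .T (j + 1) (i * 8 ^ (h (j + 1) - h j) + r.1) (hb r)) ?_ ?_
    · intro a b hab
      simp only [Vtx.T.injEq] at hab
      apply Fin.ext
      omega
    · intro r
      exact Or.inl (Adj0.tp j i _ hi (hb r) (child_div (lt_of_lt_of_le r.2 h8)))

/-! ### clusters and components -/

theorem lift_walk {V : Type} {G' : SimpleGraph V} {ω : V → Bool} {a b : {x | ω x = true}}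
    (q : (G'.induce {x | ω x = true}).Walk a b) :
    ∃ p : G'.Walk a.1 b.1, ∀ x ∈ p.support, ω x = true := by
  induction q with
  | @nil a => exact ⟨.nil, fun x hx => by
      rw [SimpleGraph.Walk.support_nil, List.mem_singleton] at hx
      rw [hx]; exact a.2⟩
  | @cons a b c hab q ih =>
    obtain ⟨p, hp⟩ := ih
    have hab' : G'.Adj a.1 b.1 := hab
    refine ⟨.cons hab' p, fun x hx => ?_⟩
    rw [SimpleGraph.Walk.support_cons, List.mem_cons] at hx
    rcases hx with rfl | hx
    · exact a.2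
    · exact hp x hx

theorem mem_openCluster {V : Type} {G' : SimpleGraph V} {ω : V → Bool} {v w : V} (hv : ω v = true) :
    w ∈ openCluster G' ω v ↔ ∃ hw : ω w = true,
      (G'.induce {x | ω x = true}).Reachable ⟨v, hv⟩ ⟨w, hw⟩ := by
  constructor
  · rintro ⟨p, hp⟩
    exact ⟨hp w p.end_mem_support, ⟨p.induce {x | ω x = true} hp⟩⟩
  · rintro ⟨hw, ⟨q⟩⟩
    exact lift_walk q

theorem openCluster_closed {V : Type} {G' : SimpleGraph V} {ω : V → Bool} {v : V}
    (hv : ω v ≠ true) : openCluster G' ω v = ∅ := by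
  ext w
  simp only [Set.mem_empty_iff_false, iff_false]
  rintro ⟨p, hp⟩
  exact hv (hp v p.start_mem_support)

theorem openCluster_eq_image {V : Type} {G' : SimpleGraph V} {ω : V → Bool} {v : V} (hv : ω v = true) :
    openCluster G' ω v = Subtype.val ''
      ((G'.induce {x | ω x = true}).connectedComponentMk ⟨v, hv⟩).supp := by
  ext w
  rw [mem_openCluster hv]
  constructor
  · rintro ⟨hw, hr⟩
    refine ⟨⟨w, hw⟩, ?_, rfl⟩
    rw [SimpleGraph.ConnectedComponent.mem_supp_iff]
    exact SimpleGraph.ConnectedComponent.sound hr.symm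
  · rintro ⟨⟨w', hw⟩, hm, rfl⟩
    rw [SimpleGraph.ConnectedComponent.mem_supp_iff] at hm
    exact ⟨hw, (SimpleGraph.ConnectedComponent.exact hm).symm⟩

theorem infinite_iff {V : Type} {G' : SimpleGraph V} {ω : V → Bool} {v : V} (hv : ω v = true) :
    (openCluster G' ω v).Infinite ↔
      ((G'.induce {x | ω x = true}).connectedComponentMk ⟨v, hv⟩).supp.Infinite := by
  rw [openCluster_eq_image hv]
  exact Set.infinite_image_iff Subtype.val_injective.injOn

theorem EC_of_EH {ω : Vtx → Bool} (hH : EH ω) : EC ω := by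
  intro j i hi
  obtain ⟨i', hi', h1, h2, _⟩ := hH j i hi
  exact ⟨i', hi', h1, h2⟩

theorem nonempty_of_EC {ω : Vtx → Bool} (hE : EC ω) : (infClusters G ω).Nonempty := by
  obtain ⟨c, hc⟩ := exists_infinite_of_EC hE
  obtain ⟨⟨v, hv⟩, rfl⟩ := c.exists_rep
  exact ⟨openCluster G ω v, (infinite_iff hv).mpr hc, v, rfl⟩

theorem existsUnique {ω : Vtx → Bool} (hE : EStar ω) (hH : EH ω) : ∃! C, C ∈ infClusters G ω := by
  have C := conf_of_EStar hE
  have h0 : ω root = true := by
    obtain ⟨_, h⟩ := C.root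
    exact h
  have key : ∀ D ∈ infClusters G ω, D = openCluster G ω root := by
    rintro D ⟨hD, v, rfl⟩
    have hv : ω v = true := by
      by_contra hcon
      rw [openCluster_closed hcon] at hD
      exact hD Set.finite_empty
    rw [openCluster_eq_image hv, openCluster_eq_image h0,
      root_reach hE hH h0 _ ((infinite_iff hv).mp hD)]
  obtain ⟨D, hD⟩ := nonempty_of_EC (EC_of_EH hH)
  refine ⟨openCluster G ω root, by rw [← key D hD]; exact hD, key⟩

/-! ### the bounds for all large `p` -/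

theorem mu_star' {p : ℝ} (hp0 : 1 - (1 / 2) ^ 40 ≤ p) (hp1 : p ≤ 1) :
    mu p {ω | ¬ EStar ω} ≤ ENNReal.ofReal (1 / 4) := by
  classical
  have hp : p ∈ Set.Icc (0:ℝ) 1 := ⟨le_trans (by norm_num) hp0, hp1⟩
  have h1 : {ω | ¬ EStar ω} ⊆ ⋃ n : ℕ, ⋃ k ∈ Finset.range (8 ^ n),
      ⋃ l ∈ (paths (n / 8) (n, k)).toFinset, {ω | l.Nodup ∧ ∀ x ∈ l, Cls ω x} := by
    intro ω hω
    simp only [Set.mem_ofPred_eq, EStar] at hω
    push Not at hω
    obtain ⟨n, k, hk, l, hl, hnd, hc⟩ := hω
    simp only [Set.mem_iUnion]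
    exact ⟨n, k, Finset.mem_range.mpr hk, l, List.mem_toFinset.mpr hl, hnd, hc⟩
  refine (measure_mono h1).trans ((measure_iUnion_le _).trans ?_)
  refine le_trans (ENNReal.tsum_le_tsum (fun n => ?_)) tsum_quarter
  refine (measure_biUnion_finset_le _ _).trans ?_
  have h2 : ∀ k ∈ Finset.range (8 ^ n),
      mu p (⋃ l ∈ (paths (n / 8) (n, k)).toFinset,
        {ω | l.Nodup ∧ ∀ x ∈ l, Cls ω x}) ≤
      ENNReal.ofReal (15 ^ (n / 8) * ((1 / 2) ^ 40) ^ (n / 8 + 1)) := by
    intro k _
    refine (measure_biUnion_finset_le _ _).trans ?_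
    have h3 : ∀ l ∈ (paths (n / 8) (n, k)).toFinset,
        mu p {ω | l.Nodup ∧ ∀ x ∈ l, Cls ω x} ≤
        ENNReal.ofReal (((1 / 2) ^ 40) ^ (n / 8 + 1)) := by
      intro l hl
      refine (mu_path_le hp (List.mem_toFinset.mp hl)).trans (ENNReal.ofReal_le_ofReal ?_)
      exact pow_le_pow_left₀ (by linarith) (by linarith) _
    refine (Finset.sum_le_card_nsmul _ _ _ h3).trans ?_
    have h15 : ENNReal.ofReal (15 ^ (n / 8)) = ((15 ^ (n / 8) : ℕ) : ENNReal) := by
      rw [ENNReal.ofReal_pow (by norm_num), ENNReal.ofReal_ofNat]; push_cast; rfl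
    rw [nsmul_eq_mul, ENNReal.ofReal_mul (by positivity), h15]
    gcongr
    have h4 := List.toFinset_card_le (paths (n / 8) (n, k))
    rw [paths_length] at h4
    exact h4
  refine (Finset.sum_le_card_nsmul _ _ _ h2).trans ?_
  rw [nsmul_eq_mul, Finset.card_range]
  have h5 : ((8 ^ n : ℕ) : ENNReal) = ENNReal.ofReal (8 ^ n) := by
    rw [ENNReal.ofReal_pow (by norm_num), ENNReal.ofReal_ofNat]; push_cast; rfl
  rw [h5, ← ENNReal.ofReal_mul (by positivity)]
  exact ENNReal.ofReal_le_ofReal (star_term n)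

theorem mu_EH' {p : ℝ} (hp0 : 1 - (1 / 2) ^ 40 ≤ p) (hp1 : p ≤ 1) :
    mu p {ω | ¬ EH ω} ≤ ENNReal.ofReal (1 / 4) := by
  have hp : 0 < p := lt_of_lt_of_le (by norm_num) hp0
  have key := mu_T (p := p) hp hp1
    (fun j => nn (j + 1) / 8 + 2) SH card_SH disj_SH (by
    intro j
    refine T_term (t := nn (j + 1) / 8 + 2) ?_ hp ?_
    · exact pow_le_pow_left₀ (by norm_num) (le_trans (by norm_num) hp0) _
    · unfold nn
      have h1 := h_succ j
      omega)
  refine (measure_mono ?_).trans key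
  intro ω hω
  simp only [Set.mem_ofPred_eq, EH] at hω ⊢
  push Not at hω
  obtain ⟨j, i, hi, hω⟩ := hω
  refine ⟨j, i, hi, fun c hc => ?_⟩
  have hT := hc _ (mem_SH.mpr (Or.inl rfl))
  obtain ⟨e, he, hne⟩ := hω (i * 8 ^ (h (j + 1) - h j) + c.1) (child_lt hi c.2) (child_div c.2) hT
  apply hne
  exact ⟨asc_lt (child_lt hi c.2) e, hc _ (mem_SH.mpr (Or.inr ⟨e, he, rfl⟩))⟩

theorem unique_prob {p : ℝ} (hp0 : 1 - (1 / 2) ^ 40 ≤ p) (hp1 : p ≤ 1) :
    siteMeasure Vtx p {ω | ¬ ∃! C, C ∈ infClusters G ω} ≤ 1 / 2 := by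
  rw [site_eq]
  have h2 : {ω | ¬ ∃! C, C ∈ infClusters G ω} ⊆ {ω | ¬ EStar ω} ∪ {ω | ¬ EH ω} := by
    intro ω hω
    by_contra hcon
    simp only [Set.mem_union, Set.mem_ofPred_eq, not_or, not_not] at hcon
    exact hω (existsUnique hcon.1 hcon.2)
  refine ((measure_mono h2).trans (measure_union_le _ _)).trans
    ((add_le_add (mu_star' hp0 hp1) (mu_EH' hp0 hp1)).trans ?_)
  rw [← ENNReal.ofReal_add (by norm_num) (by norm_num)]
  have e1 : (1 / 4 + 1 / 4 : ℝ) = (2 : ℝ)⁻¹ := by norm_num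
  rw [e1, ENNReal.ofReal_inv_of_pos (by norm_num)]
  simp

theorem exists_prob {p : ℝ} (hp0 : (1 / 2) ^ 41 < p) (hp1 : p ≤ 1) :
    siteMeasure Vtx p {ω | ¬ (infClusters G ω).Nonempty} ≤ 1 / 4 := by
  rw [site_eq]
  have h2 : {ω | ¬ (infClusters G ω).Nonempty} ⊆ {ω | ¬ EC ω} := by
    intro ω hω h1
    exact hω (nonempty_of_EC h1)
  refine (measure_mono h2).trans ((mu_EC hp0 hp1).trans ?_)
  rw [one_div, ENNReal.ofReal_inv_of_pos (by norm_num)]
  simp

theorem crit_le : critProb G ≤ (1 / 2) ^ 41 := by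
  have main : ∀ a : ℝ, (1 / 2) ^ 41 < a → a ≤ 1 → critProb G ≤ a := by
    intro a ha h1
    refine csInf_le ⟨0, fun x hx => hx.1⟩ ⟨?_, h1, ?_⟩
    · exact le_trans (by positivity) ha.le
    · have hp : a ∈ Set.Icc (0:ℝ) 1 := ⟨le_trans (by positivity) ha.le, h1⟩
      have hprob := mu_prob hp
      have h2 := exists_prob ha h1
      rw [pos_iff_ne_zero]
      intro h3
      rw [site_eq] at h2 h3
      have h4 : (Set.univ : Set (Vtx → Bool)) ⊆
          {ω | (infClusters G ω).Nonempty} ∪ {ω | ¬ (infClusters G ω).Nonempty} := by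
        intro ω _
        exact em _
      have h5 := (measure_mono (μ := mu a) h4).trans (measure_union_le _ _)
      rw [measure_univ, h3, zero_add] at h5
      have h6 := h5.trans h2
      have h7 : (1 / 4 : ENNReal) < 1 := by
        rw [one_div]
        exact ENNReal.inv_lt_one.mpr (by norm_num)
      exact absurd h6 (not_le.mpr h7)
  refine le_of_forall_gt_imp_ge_of_dense ?_
  intro a ha
  by_cases h1 : a ≤ 1
  · exact main a ha h1
  · exact (main 1 (by norm_num) le_rfl).trans (not_le.mp h1).le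

end Pool.Agent.Lib.MP_a838d0_pr.Own
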